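import Mathlib

/-!
Project EZ (helper282): relations between sections of an elliptic scheme
`y ^ 2 = x ^ 3 + A x + B`. Definitions and statements of the independent parts.
-/

open MvPolynomial

namespace Pool.Agent.W282.EZ

/-- The Weierstrass curve `y ^ 2 = x ^ 3 + A x + B`. -/
def cv {R : Type*} [CommRing R] (A B : R) : WeierstrassCurve.Affine R := ⟨0, 0, 0, A, B⟩

section forms

variable {R : Type*} [CommRing R]

/-- First symmetric form: numerator of `x(P+Q) x(P-Q)`. -/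
def c2 (A B X Z X' Z' : R) : R := (X * X' - A * (Z * Z')) ^ 2 - 4 * B * (Z * Z') * (X * Z' + X' * Z)

/-- Second symmetric form: numerator of `x(P+Q) + x(P-Q)`. -/
def c1 (A B X Z X' Z' : R) : R :=
  2 * (X * Z' + X' * Z) * (X * X' + A * (Z * Z')) + 4 * B * (Z * Z') ^ 2

/-- Third symmetric form: the common denominator. -/
def c0 (X Z X' Z' : R) : R := (X * Z' - X' * Z) ^ 2

/-- Homogeneous `x`-coordinate of the multiple `m P`, for `P = (x, y)`. -/
def mulXZ (A B x : R) : ℕ → R × R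
  | 0 => (1, 0)
  | 1 => (x, 1)
  | (m + 2) =>
    if (m + 2) % 2 = 0 then
      let p := mulXZ A B x ((m + 2) / 2)
      (c2 A B p.1 p.2 p.1 p.2, c1 A B p.1 p.2 p.1 p.2)
    else
      let p := mulXZ A B x ((m + 2) / 2)
      let q := mulXZ A B x ((m + 2) / 2 + 1)
      (c1 A B p.1 p.2 q.1 q.2 - x * c0 p.1 p.2 q.1 q.2, c0 p.1 p.2 q.1 q.2)
termination_by m => m
decreasing_by all_goals omega

theorem mulXZ_zero (A B x : R) : mulXZ A B x 0 = (1, 0) := by
  rw [mulXZ]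

theorem mulXZ_one (A B x : R) : mulXZ A B x 1 = (x, 1) := by
  rw [mulXZ]

theorem mulXZ_even (A B x : R) {m : ℕ} (hm : 1 ≤ m) : mulXZ A B x (2 * m) =
    (c2 A B (mulXZ A B x m).1 (mulXZ A B x m).2 (mulXZ A B x m).1 (mulXZ A B x m).2,
     c1 A B (mulXZ A B x m).1 (mulXZ A B x m).2 (mulXZ A B x m).1 (mulXZ A B x m).2) := by
  obtain ⟨k, rfl⟩ : ∃ k, m = k + 1 := ⟨m - 1, by omega⟩
  have h : 2 * (k + 1) = 2 * k + 2 := by ring
  rw [h, mulXZ, if_pos (by omega)]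
  have h2 : (2 * k + 2) / 2 = k + 1 := by omega
  rw [h2]

theorem mulXZ_odd (A B x : R) {m : ℕ} (hm : 1 ≤ m) : mulXZ A B x (2 * m + 1) =
    (c1 A B (mulXZ A B x m).1 (mulXZ A B x m).2 (mulXZ A B x (m + 1)).1 (mulXZ A B x (m + 1)).2 -
      x * c0 (mulXZ A B x m).1 (mulXZ A B x m).2 (mulXZ A B x (m + 1)).1 (mulXZ A B x (m + 1)).2,
     c0 (mulXZ A B x m).1 (mulXZ A B x m).2 (mulXZ A B x (m + 1)).1 (mulXZ A B x (m + 1)).2) := by
  obtain ⟨k, rfl⟩ : ∃ k, m = k + 1 := ⟨m - 1, by omega⟩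
  have h : 2 * (k + 1) + 1 = (2 * k + 1) + 2 := by ring
  rw [h, mulXZ, if_neg (by omega)]
  have h2 : (2 * k + 1 + 2) / 2 = k + 1 := by omega
  rw [h2]

theorem mulXZ_map {S : Type*} [CommRing S] (φ : R →+* S) (A B x : R) (m : ℕ) :
    mulXZ (φ A) (φ B) (φ x) m = (φ (mulXZ A B x m).1, φ (mulXZ A B x m).2) := by
  induction m using Nat.strong_induction_on with
  | _ m ih =>
    rcases Nat.lt_or_ge m 2 with h | h
    · interval_cases m
      · simp [mulXZ_zero]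
      · simp [mulXZ_one]
    · rcases Nat.even_or_odd' m with ⟨k, rfl | rfl⟩
      · rw [mulXZ_even _ _ _ (by omega), mulXZ_even _ _ _ (by omega), ih k (by omega)]
        simp [c2, c1, map_ofNat]
      · rw [mulXZ_odd _ _ _ (by omega), mulXZ_odd _ _ _ (by omega), ih k (by omega),
          ih (k + 1) (by omega)]
        simp [c0, c1, map_ofNat]

end forms

/-- The point `(x, y)`, or `0` if it is not a nonsingular point. -/
noncomputable def pt {K : Type} [Field K] (A B x y : K) : (cv A B).Point :=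
  open Classical in if h : (cv A B).Nonsingular x y then .some x y h else 0

/-- `(X : Z)` is the `x`-coordinate of `S`. -/
def IsX {K : Type} [Field K] {A B : K} (S : (cv A B).Point) (X Z : K) : Prop :=
  (X ≠ 0 ∨ Z ≠ 0) ∧ X * S.xRep 1 = Z * S.xRep 0

open Classical in
/-- The relations between points. -/
noncomputable def LL {K : Type} [Field K] {n : ℕ} (A B : K) (x y : Fin n → K) :
    Submodule ℤ (Fin n → ℤ) :=
  LinearMap.ker (Fintype.linearCombination ℤ fun j => pt A B (x j) (y j))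

/-- Sum and difference of two points. -/
def S_ADDSUB : Prop := ∀ (K : Type) [Field K] [DecidableEq K] [CharZero K] (A B : K)
  (_ : 4 * A ^ 3 + 27 * B ^ 2 ≠ 0) (P Q : (cv A B).Point), ∃ k : K, k ≠ 0 ∧
    c2 A B (P.xRep 0) (P.xRep 1) (Q.xRep 0) (Q.xRep 1) =
      k * ((P + Q).xRep 0 * (P - Q).xRep 0) ∧
    c1 A B (P.xRep 0) (P.xRep 1) (Q.xRep 0) (Q.xRep 1) =
      k * ((P + Q).xRep 0 * (P - Q).xRep 1 + (P + Q).xRep 1 * (P - Q).xRep 0) ∧
    c0 (P.xRep 0) (P.xRep 1) (Q.xRep 0) (Q.xRep 1) =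
      k * ((P + Q).xRep 1 * (P - Q).xRep 1)

/-- The homogeneous `x`-coordinate of a multiple. -/
def S_MULT : Prop := ∀ (K : Type) [Field K] [DecidableEq K] [CharZero K] (A B : K)
  (_ : 4 * A ^ 3 + 27 * B ^ 2 ≠ 0) (x y : K) (h : (cv A B).Nonsingular x y) (m : ℕ),
    IsX (m • (WeierstrassCurve.Affine.Point.some x y h : (cv A B).Point))
      (mulXZ A B x m).1 (mulXZ A B x m).2

/-- Leading coefficients, as polynomials in `x`. -/
def S_LEAD : Prop := ∀ (R : Type) [CommRing R] (A B : R) (m : ℕ), 1 ≤ m →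
  (mulXZ (Polynomial.C A) (Polynomial.C B) Polynomial.X m).1.natDegree ≤ m ^ 2 ∧
  (mulXZ (Polynomial.C A) (Polynomial.C B) Polynomial.X m).1.coeff (m ^ 2) = 1 ∧
  (mulXZ (Polynomial.C A) (Polynomial.C B) Polynomial.X m).2.natDegree ≤ m ^ 2 - 1 ∧
  (mulXZ (Polynomial.C A) (Polynomial.C B) Polynomial.X m).2.coeff (m ^ 2 - 1) = (m : R) ^ 2

/-- Total degrees. -/
def S_DEGM : Prop := ∀ (N D : ℕ) (A B x : MvPolynomial (Fin N) ℂ), 1 ≤ D → A.totalDegree ≤ D →
  B.totalDegree ≤ D → x.totalDegree ≤ D → ∀ m : ℕ,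
  (mulXZ A B x m).1.totalDegree ≤ D * m ^ 2 ∧ (mulXZ A B x m).2.totalDegree ≤ D * m ^ 2

/-- Relations up to signs between several points. -/
def S_KUM : Prop := ∀ n : ℕ, ∃ F : MvPolynomial (Fin 2 ⊕ Fin n × Fin 2) ℤ,
  ∀ (K : Type) [Field K] [DecidableEq K] [CharZero K] (A B : K) (_ : 4 * A ^ 3 + 27 * B ^ 2 ≠ 0)
    (S : Fin n → (cv A B).Point) (X Z : Fin n → K), (∀ j, IsX (S j) (X j) (Z j)) →
    (aeval (Sum.elim ![A, B] fun p : Fin n × Fin 2 => if p.2 = 0 then X p.1 else Z p.1) F = 0 ↔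
      ∃ ε : Fin n → ℤ, (∀ j, ε j = 1 ∨ ε j = -1) ∧ ∑ j, ε j • S j = 0)

/-- Reduction is a homomorphism. -/
def S_RED : Prop := ∀ (K : Type) [Field K] [CharZero K] [IsAlgClosed K] [DecidableEq K]
  (O : ValuationSubring K) [DecidableEq (IsLocalRing.ResidueField O)] (A B : O)
  (_ : IsUnit (4 * A ^ 3 + 27 * B ^ 2)) (_ : IsUnit (2 : O)),
  ∃ ψ : (cv (A : K) (B : K)).Point →+
      (cv (IsLocalRing.residue O A) (IsLocalRing.residue O B)).Point,
    (∀ (x y : O) (h : (cv (A : K) (B : K)).Nonsingular (x : K) (y : K)),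
      ψ (.some (x : K) (y : K) h) = pt (IsLocalRing.residue O A) (IsLocalRing.residue O B)
        (IsLocalRing.residue O x) (IsLocalRing.residue O y)) ∧
    ∀ (x y : K) (h : (cv (A : K) (B : K)).Nonsingular x y), x ∉ O → ψ (.some x y h) = 0

/-- Specialization of relations. -/
def S_SPEC : Prop := ∀ (K : Type) [Field K] [CharZero K] [IsAlgClosed K] (O : ValuationSubring K)
  (n : ℕ) (A B : O) (x y : Fin n → O), IsUnit (4 * A ^ 3 + 27 * B ^ 2) → IsUnit (2 : O) →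
  (∀ k : ℕ, k ≠ 0 → IsUnit (k : O)) → (∀ j, y j ^ 2 = x j ^ 3 + A * x j + B) →
  LL (A : K) (B : K) (fun j => (x j : K)) (fun j => (y j : K)) ≤
    LL (IsLocalRing.residue O A) (IsLocalRing.residue O B) (fun j => IsLocalRing.residue O (x j))
      (fun j => IsLocalRing.residue O (y j)) ∧
  ∀ (k : ℤ) (a : Fin n → ℤ), k ≠ 0 →
    a ∈ LL (IsLocalRing.residue O A) (IsLocalRing.residue O B)
      (fun j => IsLocalRing.residue O (x j)) (fun j => IsLocalRing.residue O (y j)) →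
    k • a ∈ LL (A : K) (B : K) (fun j => (x j : K)) (fun j => (y j : K)) →
    a ∈ LL (A : K) (B : K) (fun j => (x j : K)) (fun j => (y j : K))

/-- Extension of fields. -/
def S_INJ : Prop := ∀ (K K' : Type) [Field K] [Field K'] (ι : K →+* K') (n : ℕ) (A B : K)
  (x y : Fin n → K), LL (ι A) (ι B) (fun j => ι (x j)) (fun j => ι (y j)) = LL A B x y

/-- Valuation rings for two prime ideals. -/
def S_VAL : Prop := ∀ (N : ℕ) (P Q : Ideal (MvPolynomial (Fin N) ℂ)), P.IsPrime → Q.IsPrime →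
  P ≤ Q → ∃ (K : Type) (_ : Field K) (_ : CharZero K) (_ : IsAlgClosed K)
    (O : ValuationSubring K) (φ : MvPolynomial (Fin N) ℂ →+* O),
    (∀ f, φ f = 0 ↔ f ∈ P) ∧ (∀ f, IsLocalRing.residue O (φ f) = 0 ↔ f ∈ Q) ∧
    ∀ k : ℕ, k ≠ 0 → IsUnit (k : O)

end Pool.Agent.W282.EZ
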