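import Pool.Agent.W282.EZ.Stm
import Pool.Agent.W672.EZ.Inj
import Pool.Agent.W101.EZ.DEGM
import Pool.Agent.W366.EZ.MULT
import Pool.Agent.W216.EZ.ADDSUB
import Pool.Agent.W216.EZ.SPEC
import Pool.Agent.W978.EZ.RED
import Pool.Agent.W215.EZ.Lead

/-!
Project EZ: points in Jacobian coordinates.
-/

open MvPolynomial

namespace Pool.Agent.W282.EZ

theorem mult' : S_MULT := Pool.Agent.W366.EZ.mult Pool.Agent.W216.EZ.addsub

section coords

variable {K : Type} [Field K]

/-- The affine `x`-coordinate of the point `(X : Y : T)`. -/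
noncomputable def jx (X T : K) : K := X / T ^ 2

open Classical in
/-- The affine `y`-coordinate of the point `(X : Y : T)`, with a value giving no point of the
curve for `T = 0`. -/
noncomputable def jy (B Y T : K) : K := if T = 0 then (if B = 0 then 1 else 0) else Y / T ^ 3

theorem pt_zero (A B X Y : K) : pt A B (jx X 0) (jy B Y 0) = 0 := by
  rw [pt, dif_neg]
  intro h
  have h1 := (WeierstrassCurve.Affine.equation_iff (W := cv A B) _ _).1 h.1
  simp only [cv, jx, jy] at h1
  by_cases hB : B = 0
  · simp [hB] at h1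
  · simp [hB] at h1
    exact hB h1.symm

theorem map_jx {K' : Type} [Field K'] (ι : K →+* K') (X T : K) : ι (jx X T) = jx (ι X) (ι T) := by
  rw [jx, jx, map_div₀, map_pow]

theorem map_jy {K' : Type} [Field K'] (ι : K →+* K') (B Y T : K) :
    ι (jy B Y T) = jy (ι B) (ι Y) (ι T) := by
  rw [jy, jy]
  by_cases hT : T = 0
  · have hT' : ι T = 0 := by rw [hT, map_zero]
    rw [if_pos hT, if_pos hT']
    by_cases hB : B = 0
    · have hB' : ι B = 0 := by rw [hB, map_zero]
      rw [if_pos hB, if_pos hB', map_one]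
    · have hB' : ι B ≠ 0 := by rwa [Ne, map_eq_zero]
      rw [if_neg hB, if_neg hB', map_zero]
  · have hT' : ι T ≠ 0 := by rwa [Ne, map_eq_zero]
    rw [if_neg hT, if_neg hT', map_div₀, map_pow]

/-- The relations between points in Jacobian coordinates. -/
noncomputable def LJ {n : ℕ} (A B : K) (X Y T : Fin n → K) : Submodule ℤ (Fin n → ℤ) :=
  LL A B (fun j => jx (X j) (T j)) (fun j => jy B (Y j) (T j))

theorem LJ_map {K' : Type} [Field K'] (ι : K →+* K') {n : ℕ} (A B : K) (X Y T : Fin n → K) :
    LJ (ι A) (ι B) (fun j => ι (X j)) (fun j => ι (Y j)) (fun j => ι (T j)) = LJ A B X Y T := by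
  have h := Pool.Agent.W672.EZ.inj K K' ι n A B (fun j => jx (X j) (T j))
    (fun j => jy B (Y j) (T j))
  simp only [map_jx, map_jy] at h
  exact h

open Classical in
theorem mem_LJ {n : ℕ} {A B : K} {X Y T : Fin n → K} {a : Fin n → ℤ} :
    a ∈ LJ A B X Y T ↔ ∑ j, a j • pt A B (jx (X j) (T j)) (jy B (Y j) (T j)) = 0 := by
  rw [LJ, LL, LinearMap.mem_ker, Fintype.linearCombination_apply]

theorem nonsJ (h2 : (2 : K) ≠ 0) {A B X Y T : K} (hΔ : 4 * A ^ 3 + 27 * B ^ 2 ≠ 0)
    (h : Y ^ 2 = X ^ 3 + A * X * T ^ 4 + B * T ^ 6) (hT : T ≠ 0) :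
    (cv A B).Nonsingular (jx X T) (jy B Y T) := by
  apply Pool.Agent.W216.EZ.nonsing h2 hΔ
  rw [jx, jy, if_neg hT]
  field_simp
  linear_combination h

end coords

/-- Homogeneous `x`-coordinates of the multiples of `(X : Y : T)`. -/
def mulJ {R : Type*} [CommRing R] (A B X T : R) (m : ℕ) : R × R :=
  ((mulXZ (A * T ^ 4) (B * T ^ 6) X m).1, T ^ 2 * (mulXZ (A * T ^ 4) (B * T ^ 6) X m).2)

theorem mulJ_map {R S : Type*} [CommRing R] [CommRing S] (φ : R →+* S) (A B X T : R) (m : ℕ) :
    mulJ (φ A) (φ B) (φ X) (φ T) m = (φ (mulJ A B X T m).1, φ (mulJ A B X T m).2) := by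
  rw [mulJ, mulJ, ← map_pow, ← map_pow, ← map_pow, ← map_mul, ← map_mul, mulXZ_map, map_mul]

theorem mulXZ_scale {K : Type} [Field K] (A B x : K) {T : K} (hT : T ≠ 0) (m : ℕ) :
    (mulXZ (A * T ^ 4) (B * T ^ 6) (T ^ 2 * x) m).1 = T ^ (2 * m ^ 2) * (mulXZ A B x m).1 ∧
    T ^ 2 * (mulXZ (A * T ^ 4) (B * T ^ 6) (T ^ 2 * x) m).2 =
      T ^ (2 * m ^ 2) * (mulXZ A B x m).2 := by
  induction m using Nat.strong_induction_on with
  | _ m ih =>
    rcases Nat.lt_or_ge m 2 with h | h
    · interval_cases m
      · simp [mulXZ_zero]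
      · simp [mulXZ_one]
    · rcases Nat.even_or_odd' m with ⟨k, rfl | rfl⟩
      · obtain ⟨h1, h2⟩ := ih k (by omega)
        rw [mulXZ_even _ _ _ (by omega), mulXZ_even _ _ _ (by omega)]
        generalize mulXZ (A * T ^ 4) (B * T ^ 6) (T ^ 2 * x) k = p' at h1 h2
        generalize mulXZ A B x k = p at h1 h2
        obtain ⟨U', V'⟩ := p'
        obtain ⟨U, V⟩ := p
        simp only at h1 h2 ⊢
        have hc : T ^ (2 * (2 * k) ^ 2) = (T ^ (2 * k ^ 2)) ^ 4 := by
          rw [← pow_mul]
          congr 1
          ring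
        rw [hc]
        generalize T ^ (2 * k ^ 2) = c at h1 h2
        constructor
        · calc c2 (A * T ^ 4) (B * T ^ 6) U' V' U' V' = c2 A B U' (T ^ 2 * V') U' (T ^ 2 * V') := by
                unfold c2
                ring
            _ = c ^ 4 * c2 A B U V U V := by
                rw [h1, h2]
                unfold c2
                ring
        · calc T ^ 2 * c1 (A * T ^ 4) (B * T ^ 6) U' V' U' V' =
              c1 A B U' (T ^ 2 * V') U' (T ^ 2 * V') := by
                unfold c1
                ring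
            _ = c ^ 4 * c1 A B U V U V := by
                rw [h1, h2]
                unfold c1
                ring
      · obtain ⟨h1, h2⟩ := ih k (by omega)
        obtain ⟨h3, h4⟩ := ih (k + 1) (by omega)
        rw [mulXZ_odd _ _ _ (by omega), mulXZ_odd _ _ _ (by omega)]
        generalize mulXZ (A * T ^ 4) (B * T ^ 6) (T ^ 2 * x) k = p' at h1 h2
        generalize mulXZ A B x k = p at h1 h2
        generalize mulXZ (A * T ^ 4) (B * T ^ 6) (T ^ 2 * x) (k + 1) = q' at h3 h4
        generalize mulXZ A B x (k + 1) = q at h3 h4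
        obtain ⟨U', V'⟩ := p'
        obtain ⟨U, V⟩ := p
        obtain ⟨W', Z'⟩ := q'
        obtain ⟨W, Z⟩ := q
        simp only at h1 h2 h3 h4 ⊢
        have hc : T ^ 2 * T ^ (2 * (2 * k + 1) ^ 2) =
            (T ^ (2 * k ^ 2)) ^ 2 * (T ^ (2 * (k + 1) ^ 2)) ^ 2 := by
          rw [← pow_mul, ← pow_mul, ← pow_add, ← pow_add]
          congr 1
          ring
        generalize T ^ (2 * (2 * k + 1) ^ 2) = a at hc
        generalize T ^ (2 * k ^ 2) = c at h1 h2 hc
        generalize T ^ (2 * (k + 1) ^ 2) = d at h3 h4 hc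
        have hT2 : T ^ 2 ≠ 0 := pow_ne_zero 2 hT
        constructor
        · apply mul_left_cancel₀ hT2
          calc T ^ 2 * (c1 (A * T ^ 4) (B * T ^ 6) U' V' W' Z' - T ^ 2 * x * c0 U' V' W' Z') =
              c1 A B U' (T ^ 2 * V') W' (T ^ 2 * Z') -
                x * c0 U' (T ^ 2 * V') W' (T ^ 2 * Z') := by
                unfold c1 c0
                ring
            _ = (c ^ 2 * d ^ 2) * (c1 A B U V W Z - x * c0 U V W Z) := by
                rw [h1, h2, h3, h4]
                unfold c1 c0
                ring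
            _ = T ^ 2 * (a * (c1 A B U V W Z - x * c0 U V W Z)) := by
                rw [← hc]
                ring
        · apply mul_left_cancel₀ hT2
          calc T ^ 2 * (T ^ 2 * c0 U' V' W' Z') = c0 U' (T ^ 2 * V') W' (T ^ 2 * Z') := by
                unfold c0
                ring
            _ = (c ^ 2 * d ^ 2) * c0 U V W Z := by
                rw [h1, h2, h3, h4]
                unfold c0
                ring
            _ = T ^ 2 * (a * c0 U V W Z) := by
                rw [← hc]
                ring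

theorem mulXZ_zero_zero {K : Type} [Field K] {x : K} (hx : x ≠ 0) (m : ℕ) :
    (mulXZ 0 0 x m).1 = x ^ m ^ 2 ∧ x * (mulXZ 0 0 x m).2 = (m : K) ^ 2 * x ^ m ^ 2 := by
  induction m using Nat.strong_induction_on with
  | _ m ih =>
    rcases Nat.lt_or_ge m 2 with h | h
    · interval_cases m
      · simp [mulXZ_zero]
      · simp [mulXZ_one]
    · rcases Nat.even_or_odd' m with ⟨k, rfl | rfl⟩
      · obtain ⟨h1, h2⟩ := ih k (by omega)
        rw [mulXZ_even _ _ _ (by omega)]
        generalize mulXZ 0 0 x k = p at h1 h2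
        obtain ⟨U, V⟩ := p
        simp only at h1 h2 ⊢
        have hc : x ^ (2 * k) ^ 2 = (x ^ k ^ 2) ^ 4 := by
          rw [← pow_mul]
          congr 1
          ring
        rw [hc]
        generalize x ^ k ^ 2 = c at h1 h2
        subst h1
        constructor
        · unfold c2
          ring
        · unfold c1
          push_cast
          linear_combination 4 * U ^ 3 * h2
      · obtain ⟨h1, h2⟩ := ih k (by omega)
        obtain ⟨h3, h4⟩ := ih (k + 1) (by omega)
        rw [mulXZ_odd _ _ _ (by omega)]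
        generalize mulXZ 0 0 x k = p at h1 h2
        generalize mulXZ 0 0 x (k + 1) = q at h3 h4
        obtain ⟨U, V⟩ := p
        obtain ⟨W, Z⟩ := q
        simp only at h1 h2 h3 h4 ⊢
        have hc : x * x ^ (2 * k + 1) ^ 2 = (x ^ k ^ 2) ^ 2 * (x ^ (k + 1) ^ 2) ^ 2 := by
          rw [← pow_mul, ← pow_mul, ← pow_add, ← pow_succ']
          congr 1
          ring
        generalize x ^ (2 * k + 1) ^ 2 = a at hc
        generalize x ^ k ^ 2 = c at h1 h2 hc
        generalize x ^ (k + 1) ^ 2 = d at h3 h4 hc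
        subst h1 h3
        push_cast at h4 ⊢
        constructor
        · apply mul_left_cancel₀ hx
          rw [hc]
          unfold c1 c0
          have h5 : x * (U * Z - W * V) = (2 * k + 1) * (U * W) := by
            linear_combination U * h4 - W * h2
          have h6 : x * (U * Z + W * V) = (2 * k ^ 2 + 2 * k + 1) * (U * W) := by
            linear_combination U * h4 + W * h2
          linear_combination 2 * U * W * h6 -
            (x * (U * Z - W * V) + (2 * k + 1) * (U * W)) * h5
        · apply mul_left_cancel₀ hx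
          unfold c0
          have h5 : x * (U * Z - W * V) = (2 * k + 1) * (U * W) := by
            linear_combination U * h4 - W * h2
          linear_combination (x * (U * Z - W * V) + (2 * k + 1) * (U * W)) * h5 -
            (2 * k + 1) ^ 2 * hc

theorem isX_scale {K : Type} [Field K] {A B : K} {S : (cv A B).Point} {X Z c : K} (hc : c ≠ 0)
    (h : IsX S X Z) : IsX S (c * X) (c * Z) := by
  refine ⟨?_, ?_⟩
  · rcases h.1 with h1 | h1
    · exact Or.inl (mul_ne_zero hc h1)
    · exact Or.inr (mul_ne_zero hc h1)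
  · rw [mul_assoc, h.2, mul_assoc]

theorem isX_mulJ {K : Type} [Field K] [DecidableEq K] [CharZero K] {A B X Y T : K}
    (hΔ : 4 * A ^ 3 + 27 * B ^ 2 ≠ 0) (h : Y ^ 2 = X ^ 3 + A * X * T ^ 4 + B * T ^ 6)
    (hne : X ≠ 0 ∨ T ≠ 0) (m : ℕ) :
    IsX (m • pt A B (jx X T) (jy B Y T)) (mulJ A B X T m).1 (mulJ A B X T m).2 := by
  by_cases hT : T = 0
  · subst hT
    have hX : X ≠ 0 := hne.resolve_right (fun h => h rfl)
    rw [pt_zero, smul_zero, mulJ]
    have h1 : (mulXZ (A * 0 ^ 4) (B * 0 ^ 6) X m).1 = X ^ m ^ 2 := by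
      have h2 : A * (0 : K) ^ 4 = 0 := by ring
      have h3 : B * (0 : K) ^ 6 = 0 := by ring
      rw [h2, h3]
      exact (mulXZ_zero_zero hX m).1
    have h4 : (0 : K) ^ 2 * (mulXZ (A * 0 ^ 4) (B * 0 ^ 6) X m).2 = 0 := by ring
    simp only [h1, h4]
    refine ⟨Or.inl (pow_ne_zero _ hX), ?_⟩
    rw [WeierstrassCurve.Affine.Point.xRep_zero]
    simp
  · have hns := nonsJ two_ne_zero hΔ h hT
    have h1 := mult' K A B hΔ (jx X T) (jy B Y T) hns m
    rw [Pool.Agent.W216.EZ.pt_eq hns]
    have h2 : T ^ 2 * jx X T = X := by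
      rw [jx]
      field_simp
    have h3 := mulXZ_scale A B (jx X T) hT m
    rw [h2] at h3
    rw [mulJ]
    simp only
    rw [h3.1, h3.2]
    exact isX_scale (pow_ne_zero _ hT) h1

/-- Reduction of points in Jacobian coordinates. -/
theorem specJ {K : Type} [Field K] [CharZero K] [IsAlgClosed K] (O : ValuationSubring K)
    {n : ℕ} (A B : O) (X Y T : Fin n → O) (hD : IsUnit (4 * A ^ 3 + 27 * B ^ 2))
    (h2 : IsUnit (2 : O)) (hn : ∀ k : ℕ, k ≠ 0 → IsUnit (k : O))
    (hrel : ∀ j, Y j ^ 2 = X j ^ 3 + A * X j * T j ^ 4 + B * T j ^ 6)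
    (hne : ∀ j, IsLocalRing.residue O (X j) ≠ 0 ∨ IsLocalRing.residue O (T j) ≠ 0) :
    LJ (A : K) (B : K) (fun j => (X j : K)) (fun j => (Y j : K)) (fun j => (T j : K)) ≤
      LJ (IsLocalRing.residue O A) (IsLocalRing.residue O B) (fun j => IsLocalRing.residue O (X j))
        (fun j => IsLocalRing.residue O (Y j)) (fun j => IsLocalRing.residue O (T j)) ∧
    ∀ (k : ℤ) (a : Fin n → ℤ), k ≠ 0 →
      a ∈ LJ (IsLocalRing.residue O A) (IsLocalRing.residue O B)
        (fun j => IsLocalRing.residue O (X j))
        (fun j => IsLocalRing.residue O (Y j)) (fun j => IsLocalRing.residue O (T j)) →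
      k • a ∈ LJ (A : K) (B : K) (fun j => (X j : K)) (fun j => (Y j : K)) (fun j => (T j : K)) →
      a ∈ LJ (A : K) (B : K) (fun j => (X j : K)) (fun j => (Y j : K)) (fun j => (T j : K)) := by
  classical
  obtain ⟨ψ, hψ1, hψ2⟩ := Pool.Agent.W978.EZ.red K O A B hD h2
  have h2K : (2 : K) ≠ 0 := two_ne_zero
  have hDK : 4 * (A : K) ^ 3 + 27 * (B : K) ^ 2 ≠ 0 := by
    have := (hD.map (algebraMap O K)).ne_zero
    rw [map_add, map_mul, map_mul, map_pow, map_pow, map_ofNat, map_ofNat] at this
    exact this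
  have h2k : (2 : IsLocalRing.ResidueField O) ≠ 0 := by
    have := (h2.map (IsLocalRing.residue O)).ne_zero
    simpa [map_ofNat] using this
  have hDk : 4 * (IsLocalRing.residue O A) ^ 3 + 27 * (IsLocalRing.residue O B) ^ 2 ≠ 0 := by
    have := (hD.map (IsLocalRing.residue O)).ne_zero
    simpa [map_ofNat] using this
  have hk : ∀ x y : O, y ^ 2 = x ^ 3 + A * x + B →
      (cv (IsLocalRing.residue O A) (IsLocalRing.residue O B)).Nonsingular
        (IsLocalRing.residue O x) (IsLocalRing.residue O y) := by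
    intro x y h
    apply Pool.Agent.W216.EZ.nonsing h2k hDk
    have := congrArg (IsLocalRing.residue O) h
    simpa using this
  have hrelK : ∀ j, (Y j : K) ^ 2 = (X j : K) ^ 3 + (A : K) * (X j : K) * (T j : K) ^ 4 +
      (B : K) * (T j : K) ^ 6 := by
    intro j
    have := congrArg (algebraMap O K) (hrel j)
    simpa using this
  have hpt : ∀ j, ψ (pt (A : K) (B : K) (jx (X j : K) (T j : K)) (jy (B : K) (Y j : K) (T j : K))) =
      pt (IsLocalRing.residue O A) (IsLocalRing.residue O B)
        (jx (IsLocalRing.residue O (X j)) (IsLocalRing.residue O (T j)))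
        (jy (IsLocalRing.residue O B) (IsLocalRing.residue O (Y j))
          (IsLocalRing.residue O (T j))) := by
    intro j
    by_cases hTr : IsLocalRing.residue O (T j) = 0
    · rw [hTr, pt_zero]
      by_cases hT : T j = 0
      · rw [hT]
        have h0 : ((0 : O) : K) = 0 := rfl
        rw [h0, pt_zero, map_zero]
      · have hTK : (T j : K) ≠ 0 := by
          intro h
          exact hT (Subtype.ext h)
        have hns := nonsJ h2K hDK (hrelK j) hTK
        rw [Pool.Agent.W216.EZ.pt_eq hns]
        apply hψ2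
        intro hmem
        have h5 : X j = ⟨jx (X j : K) (T j : K), hmem⟩ * T j ^ 2 := by
          apply Subtype.ext
          change (X j : K) = jx (X j : K) (T j : K) * (T j : K) ^ 2
          rw [jx]
          field_simp
        have h6 : IsLocalRing.residue O (X j) = 0 := by
          rw [h5, map_mul, map_pow, hTr]
          ring
        rcases hne j with h7 | h7
        · exact h7 h6
        · exact h7 hTr
    · obtain ⟨u, hu⟩ : ∃ u : O, T j * u = 1 := by
        have h5 : IsUnit (T j) := (IsLocalRing.residue_ne_zero_iff_isUnit _).1 hTr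
        exact h5.exists_right_inv
      have huK : (T j : K) * (u : K) = 1 := by
        have := congrArg (algebraMap O K) hu
        simpa using this
      have hur : IsLocalRing.residue O (T j) * IsLocalRing.residue O u = 1 := by
        have := congrArg (IsLocalRing.residue O) hu
        simpa using this
      have hTK : (T j : K) ≠ 0 := left_ne_zero_of_mul_eq_one huK
      have e1 : jx (X j : K) (T j : K) = ((X j * u ^ 2 : O) : K) := by
        rw [jx, div_eq_iff (pow_ne_zero 2 hTK)]
        change (X j : K) = (X j : K) * (u : K) ^ 2 * (T j : K) ^ 2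
        calc (X j : K) = (X j : K) * ((T j : K) * (u : K)) ^ 2 := by rw [huK]; ring
          _ = _ := by ring
      have e2 : jy (B : K) (Y j : K) (T j : K) = ((Y j * u ^ 3 : O) : K) := by
        rw [jy, if_neg hTK, div_eq_iff (pow_ne_zero 3 hTK)]
        change (Y j : K) = (Y j : K) * (u : K) ^ 3 * (T j : K) ^ 3
        calc (Y j : K) = (Y j : K) * ((T j : K) * (u : K)) ^ 3 := by rw [huK]; ring
          _ = _ := by ring
      have e3 : jx (IsLocalRing.residue O (X j)) (IsLocalRing.residue O (T j)) =
          IsLocalRing.residue O (X j * u ^ 2) := by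
        rw [jx, div_eq_iff (pow_ne_zero 2 hTr), map_mul, map_pow]
        calc IsLocalRing.residue O (X j) = IsLocalRing.residue O (X j) *
              (IsLocalRing.residue O (T j) * IsLocalRing.residue O u) ^ 2 := by rw [hur]; ring
          _ = _ := by ring
      have e4 : jy (IsLocalRing.residue O B) (IsLocalRing.residue O (Y j))
          (IsLocalRing.residue O (T j)) = IsLocalRing.residue O (Y j * u ^ 3) := by
        rw [jy, if_neg hTr, div_eq_iff (pow_ne_zero 3 hTr), map_mul, map_pow]
        calc IsLocalRing.residue O (Y j) = IsLocalRing.residue O (Y j) *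
              (IsLocalRing.residue O (T j) * IsLocalRing.residue O u) ^ 3 := by rw [hur]; ring
          _ = _ := by ring
      have hns := nonsJ h2K hDK (hrelK j) hTK
      rw [e1, e2] at hns
      rw [e1, e2, e3, e4, Pool.Agent.W216.EZ.pt_eq hns]
      exact hψ1 _ _ hns
  have hψP : ∀ a : Fin n → ℤ, ψ (∑ j, a j • pt (A : K) (B : K) (jx (X j : K) (T j : K))
      (jy (B : K) (Y j : K) (T j : K))) =
      ∑ j, a j • pt (IsLocalRing.residue O A) (IsLocalRing.residue O B)
        (jx (IsLocalRing.residue O (X j)) (IsLocalRing.residue O (T j)))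
        (jy (IsLocalRing.residue O B) (IsLocalRing.residue O (Y j))
          (IsLocalRing.residue O (T j))) := by
    intro a
    rw [map_sum]
    apply Finset.sum_congr rfl
    intro j _
    rw [map_zsmul, hpt]
  refine ⟨?_, ?_⟩
  · intro a ha
    rw [mem_LJ] at ha ⊢
    rw [← hψP, ha, map_zero]
  · intro k a hk0 ha hka
    rw [mem_LJ] at ha hka ⊢
    set S := ∑ j, a j • pt (A : K) (B : K) (jx (X j : K) (T j : K))
      (jy (B : K) (Y j : K) (T j : K)) with hS
    have hψT : ψ S = 0 := by rw [hψP]; exact ha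
    have hkT : k • S = 0 := by
      rw [hS, Finset.smul_sum, ← hka]
      apply Finset.sum_congr rfl
      intro j _
      rw [Pi.smul_apply, smul_assoc]
    have hmT : k.natAbs • S = 0 := by
      rcases Int.natAbs_eq k with h | h
      · rw [h, natCast_zsmul] at hkT
        exact hkT
      · rw [h, neg_zsmul, neg_eq_zero, natCast_zsmul] at hkT
        exact hkT
    have hm : 1 ≤ k.natAbs := Int.natAbs_pos.2 hk0
    generalize k.natAbs = m at hmT hm
    clear_value S
    rcases S with _ | ⟨x, y, hxy⟩
    · rfl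
    · exfalso
      have he := Pool.Agent.W216.EZ.eqn' hxy
      have hX : x ∉ O := by
        intro hX
        have hY : y ∈ O := Pool.Agent.W216.EZ.y_mem O hX he
        have h3 := hψ1 ⟨x, hX⟩ ⟨y, hY⟩ hxy
        have h4 : (⟨y, hY⟩ : O) ^ 2 = (⟨x, hX⟩ : O) ^ 3 + A * ⟨x, hX⟩ + B := by
          apply Subtype.ext
          simpa using he
        rw [Pool.Agent.W216.EZ.pt_eq (hk _ _ h4)] at h3
        have h5 : ψ (WeierstrassCurve.Affine.Point.some x y hxy) = 0 := hψT
        rw [h5] at h3
        exact WeierstrassCurve.Affine.Point.some_ne_zero _ h3.symm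
      have h6 := mult' K (A : K) (B : K) hDK x y hxy m
      rw [hmT] at h6
      have h7 : (mulXZ (A : K) (B : K) x m).2 = 0 := by
        have := h6.2
        have h8 : (mulXZ (A : K) (B : K) x m).1 * 0 = (mulXZ (A : K) (B : K) x m).2 * 1 := this
        rw [mul_zero, mul_one] at h8
        exact h8.symm
      obtain ⟨_, _, h9, h10⟩ := Pool.Agent.W215.EZ.lead O A B m hm
      apply hX
      refine Pool.Agent.W216.EZ.mem_of_root O _ (m ^ 2 - 1) h9 ?_ x ?_
      · rw [h10]
        exact (hn m (by omega)).pow 2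
      · have h11 := mulXZ_map (Polynomial.eval₂RingHom (algebraMap O K) x) (Polynomial.C A)
          (Polynomial.C B) Polynomial.X m
        have h12 := congrArg Prod.snd h11
        simp only [Polynomial.coe_eval₂RingHom, Polynomial.eval₂_C, Polynomial.eval₂_X] at h12
        rw [← h12]
        exact h7

end Pool.Agent.W282.EZ
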