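import Pool.Agent.W282.EZ.RecG
import Pool.Agent.W282.EZ.Jac
import Pool.Agent.W672.EZ.Val
import Pool.Agent.W591.EZ.Kum

/-!
Project EZ: the relations between sections of an elliptic scheme.
-/

open MvPolynomial

namespace Pool.Agent.W282.EZ

open Pool.Agent.W282.ZP Pool.Agent.W282.DZ

variable {N n : ℕ}

/-- Degrees of compositions. -/
theorem totalDegree_aeval_le {σ : Type} {M : ℕ} (F : MvPolynomial σ ℤ)
    (g : σ → MvPolynomial (Fin N) ℂ) (hg : ∀ i, (g i).totalDegree ≤ M) :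
    (aeval g F : MvPolynomial (Fin N) ℂ).totalDegree ≤ F.totalDegree * M := by
  rw [aeval_def, eval₂_eq]
  refine (totalDegree_finsetSum _ _).trans (Finset.sup_le fun m hm => ?_)
  refine (totalDegree_mul _ _).trans ?_
  have h1 : (algebraMap ℤ (MvPolynomial (Fin N) ℂ) (coeff m F)).totalDegree = 0 := by
    have h2 : algebraMap ℤ (MvPolynomial (Fin N) ℂ) (coeff m F) = C ((coeff m F : ℤ) : ℂ) := by
      simp
    rw [h2, totalDegree_C]
  rw [h1, zero_add]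
  refine (totalDegree_finsetProd _ _).trans ?_
  calc ∑ i ∈ m.support, (g i ^ m i).totalDegree ≤ ∑ i ∈ m.support, m i * M :=
        Finset.sum_le_sum fun i _ => (totalDegree_pow _ _).trans (Nat.mul_le_mul_left _ (hg i))
    _ = (∑ i ∈ m.support, m i) * M := by rw [Finset.sum_mul]
    _ ≤ F.totalDegree * M := Nat.mul_le_mul_right _ (le_totalDegree hm)

section field

variable {K : Type} [Field K]

/-- `F` detects relations up to signs. -/
def IsKum (n : ℕ) (F : MvPolynomial (Fin 2 ⊕ Fin n × Fin 2) ℤ) : Prop :=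
  ∀ (K : Type) [Field K] [DecidableEq K] [CharZero K] (A B : K) (_ : 4 * A ^ 3 + 27 * B ^ 2 ≠ 0)
    (S : Fin n → (cv A B).Point) (X Z : Fin n → K), (∀ j, IsX (S j) (X j) (Z j)) →
    (aeval (Sum.elim ![A, B] fun p : Fin n × Fin 2 => if p.2 = 0 then X p.1 else Z p.1) F = 0 ↔
      ∃ ε : Fin n → ℤ, (∀ j, ε j = 1 ∨ ε j = -1) ∧ ∑ j, ε j • S j = 0)

theorem kum_field {F : MvPolynomial (Fin 2 ⊕ Fin n × Fin 2) ℤ} (hF : IsKum n F)
    [CharZero K] {A B : K} (hΔ : 4 * A ^ 3 + 27 * B ^ 2 ≠ 0) {X Y T : Fin n → K}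
    (h : ∀ j, Y j ^ 2 = X j ^ 3 + A * X j * T j ^ 4 + B * T j ^ 6)
    (hne : ∀ j, X j ≠ 0 ∨ T j ≠ 0) (μ : Fin n → ℤ) :
    aeval (Sum.elim ![A, B] fun p : Fin n × Fin 2 =>
      if p.2 = 0 then (mulJ A B (X p.1) (T p.1) (μ p.1).natAbs).1
      else (mulJ A B (X p.1) (T p.1) (μ p.1).natAbs).2) F = 0 ↔
      ∃ ε : Fin n → ℤ, (∀ j, ε j = 1 ∨ ε j = -1) ∧ (fun j => ε j * μ j) ∈ LJ A B X Y T := by
  classical
  rw [hF K A B hΔ (fun j => (μ j).natAbs • pt A B (jx (X j) (T j)) (jy B (Y j) (T j)))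
    (fun j => (mulJ A B (X j) (T j) (μ j).natAbs).1)
    (fun j => (mulJ A B (X j) (T j) (μ j).natAbs).2)
    (fun j => isX_mulJ hΔ (h j) (hne j) _)]
  let σ : Fin n → ℤ := fun j => if 0 ≤ μ j then 1 else -1
  have hσ : ∀ j, σ j = 1 ∨ σ j = -1 := fun j => by
    by_cases h0 : 0 ≤ μ j
    · exact Or.inl (if_pos h0)
    · exact Or.inr (if_neg h0)
  have hσμ : ∀ j, ((μ j).natAbs : ℤ) = σ j * μ j := fun j => by
    by_cases h0 : 0 ≤ μ j
    · have : σ j = 1 := if_pos h0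
      rw [this]
      omega
    · have : σ j = -1 := if_neg h0
      rw [this]
      omega
  have hpm : ∀ {a b : ℤ}, (a = 1 ∨ a = -1) → (b = 1 ∨ b = -1) → (a * b = 1 ∨ a * b = -1) := by
    rintro a b (rfl | rfl) (rfl | rfl) <;> simp
  constructor
  · rintro ⟨ε, hε, hsum⟩
    refine ⟨fun j => ε j * σ j, fun j => hpm (hε j) (hσ j), ?_⟩
    rw [mem_LJ, ← hsum]
    refine Finset.sum_congr rfl fun j _ => ?_
    rw [← natCast_zsmul, smul_smul, hσμ j]
    congr 1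
    ring
  · rintro ⟨ε, hε, hmem⟩
    refine ⟨fun j => ε j * σ j, fun j => hpm (hε j) (hσ j), ?_⟩
    rw [mem_LJ] at hmem
    rw [← hmem]
    refine Finset.sum_congr rfl fun j _ => ?_
    rw [← natCast_zsmul, smul_smul, hσμ j]
    congr 1
    have h1 : σ j * σ j = 1 := by
      rcases hσ j with h2 | h2 <;> rw [h2] <;> norm_num
    calc ε j * σ j * (σ j * μ j) = ε j * μ j * (σ j * σ j) := by ring
      _ = ε j * μ j := by rw [h1, mul_one]

end field

/-- An elliptic scheme `y ^ 2 = x ^ 3 + A x + B` with `n` sections in Jacobian coordinates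
`(X : Y : T)`, which is the point `(X / T ^ 2, Y / T ^ 3)` for `T ≠ 0`, and the origin for
`T = 0`, `X ≠ 0`. -/
structure Sec (N n : ℕ) where
  A : MvPolynomial (Fin N) ℂ
  B : MvPolynomial (Fin N) ℂ
  X : Fin n → MvPolynomial (Fin N) ℂ
  Y : Fin n → MvPolynomial (Fin N) ℂ
  T : Fin n → MvPolynomial (Fin N) ℂ

variable (E : Sec N n)

/-- The prime ideals of the subvarieties on which the scheme and the sections are defined. -/
def Sec.Adm (P : Ideal (MvPolynomial (Fin N) ℂ)) : Prop :=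
  P.IsPrime ∧ 4 * E.A ^ 3 + 27 * E.B ^ 2 ∉ P ∧
    ∀ j, E.Y j ^ 2 - (E.X j ^ 3 + E.A * E.X j * E.T j ^ 4 + E.B * E.T j ^ 6) ∈ P ∧
      (E.X j ∉ P ∨ E.T j ∉ P)

/-- The relations at a point with values in a field. -/
noncomputable def Sec.rel {K : Type} [Field K] (φ : MvPolynomial (Fin N) ℂ →+* K) :
    Submodule ℤ (Fin n → ℤ) :=
  LJ (φ E.A) (φ E.B) (fun j => φ (E.X j)) (fun j => φ (E.Y j)) (fun j => φ (E.T j))

/-- The generic point. -/
noncomputable def gen (P : Ideal (MvPolynomial (Fin N) ℂ)) [P.IsPrime] :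
    MvPolynomial (Fin N) ℂ →+* FractionRing (MvPolynomial (Fin N) ℂ ⧸ P) :=
  (algebraMap (MvPolynomial (Fin N) ℂ ⧸ P) (FractionRing (MvPolynomial (Fin N) ℂ ⧸ P))).comp
    (Ideal.Quotient.mk P)

theorem gen_eq_zero (P : Ideal (MvPolynomial (Fin N) ℂ)) [P.IsPrime]
    (f : MvPolynomial (Fin N) ℂ) : gen P f = 0 ↔ f ∈ P := by
  rw [gen, RingHom.comp_apply, IsFractionRing.to_map_eq_zero_iff, Ideal.Quotient.eq_zero_iff_mem]

open Classical in
/-- The relations at the generic point. -/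
noncomputable def Sec.L (P : Ideal (MvPolynomial (Fin N) ℂ)) : Submodule ℤ (Fin n → ℤ) :=
  if _h : P.IsPrime then E.rel (gen P) else ⊥

theorem Sec.L_eq {P : Ideal (MvPolynomial (Fin N) ℂ)} (hP : P.IsPrime) {K : Type} [Field K]
    (φ : MvPolynomial (Fin N) ℂ →+* K) (hφ : ∀ f, φ f = 0 ↔ f ∈ P) : E.L P = E.rel φ := by
  rw [Sec.L, dif_pos hP]
  have hinj : Function.Injective (Ideal.Quotient.lift P φ fun f hf => (hφ f).2 hf) := by
    rw [injective_iff_map_eq_zero]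
    intro a ha
    obtain ⟨f, rfl⟩ := Ideal.Quotient.mk_surjective a
    rw [Ideal.Quotient.lift_mk, hφ] at ha
    exact Ideal.Quotient.eq_zero_iff_mem.2 ha
  let ι : FractionRing (MvPolynomial (Fin N) ℂ ⧸ P) →+* K := IsFractionRing.lift hinj
  have hι : ∀ f, ι (gen P f) = φ f := by
    intro f
    rw [gen, RingHom.comp_apply]
    change IsFractionRing.lift hinj (algebraMap (MvPolynomial (Fin N) ℂ ⧸ P)
      (FractionRing (MvPolynomial (Fin N) ℂ ⧸ P)) (Ideal.Quotient.mk P f)) = φ f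
    rw [IsFractionRing.lift_algebraMap, Ideal.Quotient.lift_mk]
  have h := LJ_map ι (gen P E.A) (gen P E.B) (fun j => gen P (E.X j))
    (fun j => gen P (E.Y j)) (fun j => gen P (E.T j))
  rw [Sec.rel, Sec.rel, ← h]
  simp only [hι]

theorem Sec.spec {P Q : Ideal (MvPolynomial (Fin N) ℂ)} (hP : E.Adm P)
    (hQ : E.Adm Q) (hPQ : P ≤ Q) : E.L P ≤ E.L Q ∧
    ∀ (k : ℤ) (a : Fin n → ℤ), k ≠ 0 → a ∈ E.L Q → k • a ∈ E.L P → a ∈ E.L P := by
  obtain ⟨K, i1, i2, i3, O, φ, h1, h2, h3⟩ := Pool.Agent.W672.EZ.val N P Q hP.1 hQ.1 hPQ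
  have hunit : ∀ f : MvPolynomial (Fin N) ℂ, f ∉ Q → IsUnit (φ f) := by
    intro f hf
    by_contra hcon
    apply hf
    rw [← h2, IsLocalRing.residue_eq_zero_iff]
    exact hcon
  have hΔ : IsUnit (4 * φ E.A ^ 3 + 27 * φ E.B ^ 2) := by
    have h4 := hunit _ hQ.2.1
    rw [map_add, map_mul, map_mul, map_pow, map_pow, map_ofNat, map_ofNat] at h4
    exact h4
  have hrel : ∀ j, φ (E.Y j) ^ 2 = φ (E.X j) ^ 3 + φ E.A * φ (E.X j) * φ (E.T j) ^ 4 +
      φ E.B * φ (E.T j) ^ 6 := by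
    intro j
    have h4 := (h1 _).2 (hP.2.2 j).1
    rw [map_sub, sub_eq_zero] at h4
    simpa using h4
  have hne : ∀ j, IsLocalRing.residue O (φ (E.X j)) ≠ 0 ∨
      IsLocalRing.residue O (φ (E.T j)) ≠ 0 := by
    intro j
    rw [Ne, h2, Ne, h2]
    exact (hQ.2.2 j).2
  have h5 := specJ O (φ E.A) (φ E.B) (fun j => φ (E.X j)) (fun j => φ (E.Y j))
    (fun j => φ (E.T j)) hΔ (by exact_mod_cast h3 2 two_ne_zero) h3 hrel hne
  have h6 : E.L P = LJ ((φ E.A : O) : K) ((φ E.B : O) : K) (fun j => ((φ (E.X j) : O) : K))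
      (fun j => ((φ (E.Y j) : O) : K)) (fun j => ((φ (E.T j) : O) : K)) := by
    rw [E.L_eq hP.1 (O.subtype.comp φ) (fun f => by
      rw [← h1, RingHom.comp_apply]
      exact (map_eq_zero_iff _ O.subtype_injective))]
    rfl
  have h7 : E.L Q = LJ (IsLocalRing.residue O (φ E.A)) (IsLocalRing.residue O (φ E.B))
      (fun j => IsLocalRing.residue O (φ (E.X j))) (fun j => IsLocalRing.residue O (φ (E.Y j)))
      (fun j => IsLocalRing.residue O (φ (E.T j))) := by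
    rw [E.L_eq hQ.1 ((IsLocalRing.residue O).comp φ) h2]
    rfl
  rw [h6, h7]
  exact h5

/-- The polynomial detecting the relation `μ` up to signs. -/
noncomputable def Sec.kp (F : MvPolynomial (Fin 2 ⊕ Fin n × Fin 2) ℤ) (μ : Fin n → ℤ) :
    MvPolynomial (Fin N) ℂ :=
  aeval (Sum.elim ![E.A, E.B] fun p : Fin n × Fin 2 =>
      if p.2 = 0 then (mulJ E.A E.B (E.X p.1) (E.T p.1) (μ p.1).natAbs).1
      else (mulJ E.A E.B (E.X p.1) (E.T p.1) (μ p.1).natAbs).2) F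

theorem Sec.map_kp (F : MvPolynomial (Fin 2 ⊕ Fin n × Fin 2) ℤ) (μ : Fin n → ℤ) {K : Type}
    [Field K] (φ : MvPolynomial (Fin N) ℂ →+* K) : φ (E.kp F μ) =
    aeval (Sum.elim ![φ E.A, φ E.B] fun p : Fin n × Fin 2 =>
      if p.2 = 0 then (mulJ (φ E.A) (φ E.B) (φ (E.X p.1)) (φ (E.T p.1)) (μ p.1).natAbs).1
      else (mulJ (φ E.A) (φ E.B) (φ (E.X p.1)) (φ (E.T p.1)) (μ p.1).natAbs).2) F := by
  rw [Sec.kp, map_aeval, aeval_def, coe_eval₂Hom]
  have h1 : φ.comp (algebraMap ℤ (MvPolynomial (Fin N) ℂ)) = algebraMap ℤ K :=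
    RingHom.ext_int _ _
  rw [h1]
  congr 1
  funext i
  rcases i with i | ⟨j, k⟩
  · fin_cases i <;> rfl
  · simp only [Sum.elim_inr]
    rw [apply_ite φ, mulJ_map]

theorem charZero_of_hom {K : Type} [Field K] (φ : MvPolynomial (Fin N) ℂ →+* K) : CharZero K :=
  charZero_of_injective_ringHom (φ.comp (C : ℂ →+* MvPolynomial (Fin N) ℂ)).injective

theorem Sec.rel_kp {F : MvPolynomial (Fin 2 ⊕ Fin n × Fin 2) ℤ}
    (hF : IsKum n F) {K : Type} [Field K] (φ : MvPolynomial (Fin N) ℂ →+* K)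
    (hΔ : φ (4 * E.A ^ 3 + 27 * E.B ^ 2) ≠ 0)
    (hy : ∀ j, φ (E.Y j ^ 2 - (E.X j ^ 3 + E.A * E.X j * E.T j ^ 4 + E.B * E.T j ^ 6)) = 0)
    (hne : ∀ j, φ (E.X j) ≠ 0 ∨ φ (E.T j) ≠ 0) (μ : Fin n → ℤ) :
    φ (E.kp F μ) = 0 ↔
      ∃ ε : Fin n → ℤ, (∀ j, ε j = 1 ∨ ε j = -1) ∧ (fun j => ε j * μ j) ∈ E.rel φ := by
  have i1 : CharZero K := charZero_of_hom φ
  rw [E.map_kp, Sec.rel]
  refine kum_field (X := fun j => φ (E.X j)) (Y := fun j => φ (E.Y j))
    (T := fun j => φ (E.T j)) hF ?_ ?_ hne μ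
  · rw [map_add, map_mul, map_mul, map_pow, map_pow, map_ofNat, map_ofNat] at hΔ
    exact hΔ
  · intro j
    have h4 := hy j
    rw [map_sub, sub_eq_zero] at h4
    simpa using h4

theorem Sec.mem_kp {F : MvPolynomial (Fin 2 ⊕ Fin n × Fin 2) ℤ}
    (hF : IsKum n F) {P : Ideal (MvPolynomial (Fin N) ℂ)} (hP : E.Adm P) (μ : Fin n → ℤ) :
    E.kp F μ ∈ P ↔
      ∃ ε : Fin n → ℤ, (∀ j, ε j = 1 ∨ ε j = -1) ∧ (fun j => ε j * μ j) ∈ E.L P := by
  have i1 := hP.1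
  rw [E.L_eq hP.1 (gen P) (gen_eq_zero P), ← gen_eq_zero P]
  refine E.rel_kp hF (gen P) ?_ ?_ ?_ μ
  · rw [Ne, gen_eq_zero]
    exact hP.2.1
  · intro j
    rw [gen_eq_zero]
    exact (hP.2.2 j).1
  · intro j
    rw [Ne, gen_eq_zero, Ne, gen_eq_zero]
    exact (hP.2.2 j).2

theorem Sec.kp_mem {F : MvPolynomial (Fin 2 ⊕ Fin n × Fin 2) ℤ}
    (hF : IsKum n F) {P : Ideal (MvPolynomial (Fin N) ℂ)} (hP : E.Adm P) {μ : Fin n → ℤ}
    (hμ : μ ∈ E.L P) : E.kp F μ ∈ P :=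
  (E.mem_kp hF hP μ).2 ⟨fun _ => 1, fun _ => Or.inl rfl, by simpa using hμ⟩

/-- `μ` is not a relation for any choice of signs. -/
def NoVar (L : Submodule ℤ (Fin n → ℤ)) (μ : Fin n → ℤ) : Prop :=
  ¬ ∃ ε : Fin n → ℤ, (∀ j, ε j = 1 ∨ ε j = -1) ∧ (fun j => ε j * μ j) ∈ L

/-- Removing the signs. -/
theorem exists_noVar {L L' : Submodule ℤ (Fin n → ℤ)} (hLL : L ≤ L') (k : ℕ) :
    ∀ (t : ℕ) (μ : Fin n → ℤ), (Finset.univ.filter fun j => μ j ≠ 0).card ≤ k → μ ∈ L' → μ ∉ L →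
      (∀ j, |μ j| < (2 : ℤ) ^ t) →
      ∃ μ' ∈ L', NoVar L μ' ∧ ∀ j, |μ' j| < (2 : ℤ) ^ (t + k) := by
  induction k with
  | zero =>
    intro t μ hc _ hμ _
    exfalso
    apply hμ
    have h0 : μ = 0 := by
      funext j
      by_contra hj
      have h1 : j ∈ Finset.univ.filter fun j => μ j ≠ 0 :=
        Finset.mem_filter.2 ⟨Finset.mem_univ j, hj⟩
      rw [Finset.card_eq_zero.1 (Nat.le_zero.1 hc)] at h1
      simp at h1
    rw [h0]
    exact L.zero_mem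
  | succ k ih =>
    intro t μ hc hμ' hμ hsz
    by_cases hv : NoVar L μ
    · exact ⟨μ, hμ', hv, fun j => (hsz j).trans_le (pow_le_pow_right₀ (by norm_num) (by omega))⟩
    · rw [NoVar, not_not] at hv
      obtain ⟨ε, hε, hmem⟩ := hv
      set ν : Fin n → ℤ := μ - fun j => ε j * μ j with hν
      have hνj : ∀ j, ν j = (1 - ε j) * μ j := fun j => by
        rw [hν, Pi.sub_apply]
        ring
      have hνL' : ν ∈ L' := L'.sub_mem hμ' (hLL hmem)
      have hνL : ν ∉ L := fun h => hμ (by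
        have h1 := L.add_mem h hmem
        rwa [hν, sub_add_cancel] at h1)
      have hex : ∃ j, μ j ≠ 0 ∧ ε j = 1 := by
        by_contra hcon
        push Not at hcon
        apply hμ
        have h1 : μ = -fun j => ε j * μ j := by
          funext j
          rw [Pi.neg_apply]
          by_cases h0 : μ j = 0
          · rw [h0, mul_zero, neg_zero]
          · have h2 := (hε j).resolve_left (hcon j h0)
            rw [h2]
            ring
        rw [h1]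
        exact L.neg_mem hmem
      obtain ⟨j₀, hj₀, hεj₀⟩ := hex
      have hsub : (Finset.univ.filter fun j => ν j ≠ 0) ⊂ Finset.univ.filter fun j => μ j ≠ 0 := by
        rw [Finset.ssubset_iff_of_subset]
        · refine ⟨j₀, Finset.mem_filter.2 ⟨Finset.mem_univ _, hj₀⟩, ?_⟩
          rw [Finset.mem_filter, not_and, not_not]
          intro _
          rw [hνj, hεj₀]
          ring
        · intro j hj
          obtain ⟨-, hj⟩ := Finset.mem_filter.1 hj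
          refine Finset.mem_filter.2 ⟨Finset.mem_univ _, fun h0 => hj ?_⟩
          rw [hνj, h0, mul_zero]
      have hcard := Finset.card_lt_card hsub
      obtain ⟨μ', h1, h2, h3⟩ := ih (t + 1) ν (by omega) hνL' hνL (fun j => by
        rw [hνj, abs_mul]
        have h4 : |1 - ε j| ≤ 2 := by
          rcases hε j with h | h <;> rw [h] <;> norm_num
        have h5 := hsz j
        have h6 := abs_nonneg (μ j)
        rw [pow_succ]
        nlinarith)
      refine ⟨μ', h1, h2, fun j => ?_⟩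
      have h4 := h3 j
      rwa [show t + 1 + k = t + (k + 1) by ring] at h4

/-- The constant. -/
def cst (n D : ℕ) (F : MvPolynomial (Fin 2 ⊕ Fin n × Fin 2) ℤ) : ℕ :=
  (6 * 2 ^ n) ^ n + F.totalDegree * (9 * D * (2 ^ (n + 1)) ^ 2) + 1

/-- The degrees of the scheme and of the sections are at most `D`. -/
def Sec.DegLE (D : ℕ) : Prop :=
  E.A.totalDegree ≤ D ∧ E.B.totalDegree ≤ D ∧ ∀ j, (E.X j).totalDegree ≤ D ∧
    (E.T j).totalDegree ≤ D

theorem Sec.mulJ_deg {D : ℕ} (hD : 1 ≤ D) (hE : E.DegLE D) (j : Fin n) {m M : ℕ} (hm : m ≤ M)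
    (hM : 1 ≤ M) : (mulJ E.A E.B (E.X j) (E.T j) m).1.totalDegree ≤ 9 * D * M ^ 2 ∧
      (mulJ E.A E.B (E.X j) (E.T j) m).2.totalDegree ≤ 9 * D * M ^ 2 := by
  obtain ⟨hA, hB, hXT⟩ := hE
  obtain ⟨hX, hT⟩ := hXT j
  have hT4 : (E.T j ^ 4).totalDegree ≤ 4 * D :=
    (totalDegree_pow _ _).trans (Nat.mul_le_mul_left 4 hT)
  have hT6 : (E.T j ^ 6).totalDegree ≤ 6 * D :=
    (totalDegree_pow _ _).trans (Nat.mul_le_mul_left 6 hT)
  have hT2 : (E.T j ^ 2).totalDegree ≤ 2 * D :=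
    (totalDegree_pow _ _).trans (Nat.mul_le_mul_left 2 hT)
  have h1 : (E.A * E.T j ^ 4).totalDegree ≤ 7 * D := (totalDegree_mul _ _).trans (by omega)
  have h2 : (E.B * E.T j ^ 6).totalDegree ≤ 7 * D := (totalDegree_mul _ _).trans (by omega)
  have h3 := Pool.Agent.W101.EZ.degm N (7 * D) (E.A * E.T j ^ 4) (E.B * E.T j ^ 6) (E.X j)
    (by omega) h1 h2 (by omega) m
  have h4 : 7 * D * m ^ 2 ≤ 7 * D * M ^ 2 := Nat.mul_le_mul_left _ (Nat.pow_le_pow_left hm 2)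
  have h5 : 2 * D ≤ 2 * D * M ^ 2 := Nat.le_mul_of_pos_right _ (by positivity)
  have h6 : 9 * D * M ^ 2 = 7 * D * M ^ 2 + 2 * D * M ^ 2 := by ring
  rw [h6]
  constructor
  · exact (h3.1.trans h4).trans (Nat.le_add_right _ _)
  · refine (totalDegree_mul _ _).trans ?_
    rw [add_comm]
    exact Nat.add_le_add (h3.2.trans h4) (hT2.trans h5)

theorem Sec.kp_deg {D : ℕ} (hD : 1 ≤ D) (hE : E.DegLE D)
    (F : MvPolynomial (Fin 2 ⊕ Fin n × Fin 2) ℤ) (e : ℕ)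
    {μ : Fin n → ℤ} (hμ : ∀ j, |μ j| < (2 : ℤ) ^ (e + 1 + n)) :
    (E.kp F μ).totalDegree ≤ cst n D F * 2 ^ (2 * e) := by
  have h1 : ∀ i : Fin 2 ⊕ Fin n × Fin 2, ((Sum.elim ![E.A, E.B] fun p : Fin n × Fin 2 =>
      if p.2 = 0 then (mulJ E.A E.B (E.X p.1) (E.T p.1) (μ p.1).natAbs).1
      else (mulJ E.A E.B (E.X p.1) (E.T p.1) (μ p.1).natAbs).2) i).totalDegree ≤
      9 * D * (2 ^ (e + 1 + n)) ^ 2 := by
    have h2 : 1 ≤ (2 ^ (e + 1 + n)) ^ 2 := Nat.one_le_pow _ _ (by positivity)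
    have h3 : D ≤ 9 * D * (2 ^ (e + 1 + n)) ^ 2 := by
      calc D ≤ 9 * D := by omega
        _ ≤ _ := Nat.le_mul_of_pos_right _ h2
    rintro (i | ⟨j, k⟩)
    · fin_cases i
      · exact hE.1.trans h3
      · exact hE.2.1.trans h3
    · have h4 : (μ j).natAbs ≤ 2 ^ (e + 1 + n) := by
        have h5 := hμ j
        rw [Int.abs_eq_natAbs] at h5
        exact_mod_cast h5.le
      have h5 := E.mulJ_deg hD hE j h4 Nat.one_le_two_pow
      simp only [Sum.elim_inr]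
      split_ifs
      · exact h5.1
      · exact h5.2
  refine (totalDegree_aeval_le F _ h1).trans ?_
  have h6 : (2 ^ (e + 1 + n)) ^ 2 = (2 ^ (n + 1)) ^ 2 * 2 ^ (2 * e) := by
    rw [← pow_mul, ← pow_mul, ← pow_add]
    congr 1
    ring
  rw [h6, cst]
  calc F.totalDegree * (9 * D * ((2 ^ (n + 1)) ^ 2 * 2 ^ (2 * e)))
      = F.totalDegree * (9 * D * (2 ^ (n + 1)) ^ 2) * 2 ^ (2 * e) := by ring
    _ ≤ _ := by
        refine Nat.mul_le_mul_right _ ?_
        omega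

/-- The system of relations of an elliptic scheme. -/
noncomputable def Sec.rels
    {F : MvPolynomial (Fin 2 ⊕ Fin n × Fin 2) ℤ} (hF : IsKum n F) {D : ℕ} (hD : 1 ≤ D)
    (hE : E.DegLE D)
    (P₀ : Ideal (MvPolynomial (Fin N) ℂ)) (γ : ℕ)
    (hγ : ∀ P, E.Adm P → P₀ ≤ P → γ ∣ Module.finrank ℤ (E.L P)) :
    Rels N n 2 (cst n D F) γ where
  Adm P := E.Adm P ∧ P₀ ≤ P
  prime P hP := hP.1.1
  mid P P' Q hP hQ hPP' hP'Q hP' := ⟨⟨hP', fun h => hQ.1.2.1 (hP'Q h), fun j =>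
    ⟨hPP' (hP.1.2.2 j).1, ((hQ.1.2.2 j).2).imp (fun h h' => h (hP'Q h')) fun h h' => h (hP'Q h')⟩⟩,
    hP.2.trans hPP'⟩
  L := E.L
  mono P Q hP hQ hPQ := (E.spec hP.1 hQ.1 hPQ).1
  pos := by
    rw [cst]
    omega
  fam := by
    classical
    intro P hP e
    set T : Finset (Fin n → ℤ) := (Fintype.piFinset fun _ : Fin n =>
      Finset.Ioo (-(2 : ℤ) ^ (e + 1 + n)) (2 ^ (e + 1 + n))).filter (NoVar (E.L P)) with hT
    have hmemT : ∀ μ, μ ∈ T ↔ (∀ j, |μ j| < (2 : ℤ) ^ (e + 1 + n)) ∧ NoVar (E.L P) μ := by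
      intro μ
      rw [hT, Finset.mem_filter, Fintype.mem_piFinset]
      simp only [Finset.mem_Ioo, abs_lt]
    obtain ⟨s, hsT, hs1, hs2⟩ := exists_reps (E.L P) T
    refine ⟨s.image (E.kp F), ?_, ?_, ?_, ?_⟩
    · have h1 := cls (E.L P) (2 ^ (e + n)) (by positivity) s (fun a ha j => by
        have h2 := ((hmemT a).1 (hsT ha)).1 j
        rw [show e + 1 + n = e + n + 1 by ring, pow_succ] at h2
        push_cast
        linarith) hs1
      have h3 : cnt (E.L P) (2 ^ e) ≤ cnt (E.L P) (2 ^ (e + n)) := by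
        refine Set.ncard_le_ncard (fun a ha => ⟨ha.1, fun j => (ha.2 j).trans_le ?_⟩)
          (cnt_finite (E.L P) _)
        exact_mod_cast Nat.pow_le_pow_right (by norm_num) (Nat.le_add_right e n)
      calc (s.image (E.kp F)).card * cnt (E.L P) (2 ^ e)
          ≤ s.card * cnt (E.L P) (2 ^ (e + n)) := Nat.mul_le_mul Finset.card_image_le h3
        _ ≤ (6 * 2 ^ (e + n)) ^ n := h1
        _ = (6 * 2 ^ n) ^ n * (2 ^ e) ^ n := by
            rw [← mul_pow, pow_add]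
            congr 1
            ring
        _ ≤ cst n D F * (2 ^ e) ^ n := by
            refine Nat.mul_le_mul_right _ ?_
            rw [cst]
            omega
    · intro f hf
      obtain ⟨μ, hμ, rfl⟩ := Finset.mem_image.1 hf
      obtain ⟨h1, h2⟩ := (hmemT μ).1 (hsT hμ)
      refine ⟨?_, E.kp_deg hD hE F e h1⟩
      rw [E.mem_kp hF hP.1]
      exact h2
    · intro Q hQ hPQ μ hμQ hμP hμe
      have hmono := (E.spec hP.1 hQ.1 hPQ).1
      obtain ⟨μ', h1, h2, h3⟩ := exists_noVar hmono n (e + 1) μ (by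
        simpa using Finset.card_le_univ (Finset.univ.filter fun j => μ j ≠ 0)) hμQ hμP hμe
      obtain ⟨b, hb, hab⟩ := hs2 μ' ((hmemT μ').2 ⟨h3, h2⟩)
      refine ⟨E.kp F b, Finset.mem_image_of_mem _ hb, E.kp_mem hF hQ.1 ?_⟩
      have h4 := (E.L Q).sub_mem h1 (hmono hab)
      rwa [sub_sub_cancel] at h4
    · intro P' hP' hPP' f hf hfP'
      obtain ⟨μ, hμ, rfl⟩ := Finset.mem_image.1 hf
      obtain ⟨h1, h2⟩ := (hmemT μ).1 (hsT hμ)
      obtain ⟨ε, hε, hmem⟩ := (E.mem_kp hF hP'.1 μ).1 hfP'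
      have hnot : (fun j => ε j * μ j) ∉ E.L P := fun h => h2 ⟨ε, hε, h⟩
      have hsp := E.spec hP.1 hP'.1 hPP'
      have h3 := finrank_succ hsp.1 hmem fun k hk hkμ => hnot (hsp.2 k _ hk hmem hkμ)
      obtain ⟨a, ha⟩ := hγ P hP.1 hP.2
      obtain ⟨b, hb⟩ := hγ P' hP'.1 hP'.2
      rw [ha, hb] at h3 ⊢
      have h4 : a < b := by
        by_contra hcon
        push Not at hcon
        have := Nat.mul_le_mul_left γ hcon
        omega
      calc γ * a + γ = γ * (a + 1) := by ring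
        _ ≤ γ * b := Nat.mul_le_mul_left γ h4

end Pool.Agent.W282.EZ
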