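import Pool.Agent.W282.EZ.Top

/-!
Project EZ: complex multiplication, where the ranks of the groups of relations are even.
-/

open MvPolynomial Filter
open scoped ENNReal

namespace Pool.Agent.W282.EZ

open Pool.Agent.W282.ZP Pool.Agent.W282.DZ

theorem even_finrank {n : ℕ} (J : (Fin n → ℤ) →ₗ[ℤ] (Fin n → ℤ)) (a b : ℤ)
    (hJ : ∀ v, J (J v) = a • J v + b • v) (hd : a ^ 2 + 4 * b < 0)
    (L : Submodule ℤ (Fin n → ℤ)) (hL : ∀ v ∈ L, J v ∈ L) : 2 ∣ Module.finrank ℤ L := by
  let K : (Fin n → ℤ) →ₗ[ℤ] (Fin n → ℤ) := (2 : ℤ) • J - a • LinearMap.id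
  have hKv : ∀ v, K v = (2 : ℤ) • J v - a • v := fun v => rfl
  have hK : ∀ v, K (K v) = (a ^ 2 + 4 * b) • v := by
    intro v
    rw [hKv, hKv, map_sub, map_smul, map_smul, hJ]
    module
  have hKL : ∀ v ∈ L, K v ∈ L := by
    intro v hv
    rw [hKv]
    exact L.sub_mem (L.smul_mem _ (hL v hv)) (L.smul_mem _ hv)
  let K' : L →ₗ[ℤ] L := K.restrict hKL
  have h1 : K' * K' = (a ^ 2 + 4 * b) • (1 : L →ₗ[ℤ] L) := by
    ext1 v
    apply Subtype.ext
    change K (K (v : Fin n → ℤ)) = (a ^ 2 + 4 * b) • (v : Fin n → ℤ)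
    exact hK v
  have h2 := congrArg LinearMap.det h1
  rw [map_mul, LinearMap.det_smul, map_one, mul_one] at h2
  by_contra hodd
  have h3 : Odd (Module.finrank ℤ L) := by
    rw [← Nat.not_even_iff_odd, even_iff_two_dvd]
    exact hodd
  have h4 := h3.pow_neg hd
  nlinarith [mul_self_nonneg (LinearMap.det K')]

variable {N n : ℕ} (E : Sec N n)

/-- An admissible prime ideal is the ideal of a set of points at which everything is defined. -/
theorem Sec.exists_points {P : Ideal (MvPolynomial (Fin N) ℂ)} (hP : E.Adm P) :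
    ∃ W : Set (Fin N → ℂ), idealOf W = P ∧ E.On W := by
  let W : Set (Fin N → ℂ) := {s | (∀ f ∈ P, eval s f = 0) ∧
    eval s (4 * E.A ^ 3 + 27 * E.B ^ 2) ≠ 0 ∧ ∀ j, (eval s (E.X j) ≠ 0 ∨ eval s (E.T j) ≠ 0)}
  have hprime := hP.1
  refine ⟨W, le_antisymm ?_ ?_, ?_⟩
  · intro f hf
    rw [mem_idealOf] at hf
    have hex : ∀ j, ∃ h : MvPolynomial (Fin N) ℂ, h ∉ P ∧ (h = E.X j ∨ h = E.T j) := by
      intro j
      rcases (hP.2.2 j).2 with h | h
      · exact ⟨_, h, Or.inl rfl⟩
      · exact ⟨_, h, Or.inr rfl⟩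
    choose h hh1 hh2 using hex
    have hg : (4 * E.A ^ 3 + 27 * E.B ^ 2) * ∏ j, h j ∉ P := by
      intro hmem
      rcases hprime.mem_or_mem hmem with h1 | h1
      · exact hP.2.1 h1
      · obtain ⟨j, -, hj⟩ := (hprime.prod_mem_iff).1 h1
        exact hh1 j hj
    have hfg : f * ((4 * E.A ^ 3 + 27 * E.B ^ 2) * ∏ j, h j) ∈ P := by
      have h1 : f * ((4 * E.A ^ 3 + 27 * E.B ^ 2) * ∏ j, h j) ∈
          vanishingIdeal ℂ (zeroLocus ℂ P) := by
        rw [mem_vanishingIdeal_iff]
        intro s hs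
        rw [mem_zeroLocus_iff] at hs
        have hs' : ∀ p ∈ P, eval s p = 0 := fun p hp => by
          rw [← coe_aeval_eq_eval]
          exact hs p hp
        have hae : ∀ p : MvPolynomial (Fin N) ℂ, aeval s p = eval s p := fun p => by
          rw [← coe_aeval_eq_eval]
          rfl
        rw [hae, map_mul, mul_eq_zero]
        by_cases hsW : s ∈ W
        · exact Or.inl (hf s hsW)
        · right
          rw [map_mul, mul_eq_zero]
          by_cases h2 : eval s (4 * E.A ^ 3 + 27 * E.B ^ 2) = 0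
          · exact Or.inl h2
          · right
            have h3 : ∃ j, ¬ (eval s (E.X j) ≠ 0 ∨ eval s (E.T j) ≠ 0) := by
              by_contra hcon
              push Not at hcon
              apply hsW
              exact ⟨hs', h2, hcon⟩
            obtain ⟨j, hj⟩ := h3
            rw [not_or, not_not, not_not] at hj
            rw [map_prod]
            refine Finset.prod_eq_zero (Finset.mem_univ j) ?_
            rcases hh2 j with h5 | h5
            · rw [h5]
              exact hj.1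
            · rw [h5]
              exact hj.2
      rw [vanishingIdeal_zeroLocus_eq_radical, hprime.radical] at h1
      exact h1
    exact (hprime.mem_or_mem hfg).resolve_right hg
  · intro f hf
    rw [mem_idealOf]
    exact fun s hs => hs.1 f hf
  · intro s hs
    exact ⟨hs.2.1, fun j => ⟨hs.1 _ (hP.2.2 j).1, hs.2.2 j⟩⟩

theorem Sec.two_dvd {V : Set (Fin N → ℂ)} (J : (Fin n → ℤ) →ₗ[ℤ] (Fin n → ℤ)) (a b : ℤ)
    (hJ : ∀ v, J (J v) = a • J v + b • v) (hd : a ^ 2 + 4 * b < 0)
    (hstab : ∀ s, (∀ f ∈ idealOf V, eval s f = 0) → E.On {s} →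
      ∀ v ∈ E.rel (eval s), J v ∈ E.rel (eval s))
    (P : Ideal (MvPolynomial (Fin N) ℂ)) (hP : E.Adm P) (hVP : idealOf V ≤ P) :
    2 ∣ Module.finrank ℤ (E.L P) := by
  obtain ⟨W, hW, hon⟩ := E.exists_points hP
  have hWp : (idealOf W).IsPrime := by
    rw [hW]
    exact hP.1
  rw [← hW, E.L_idealOf hWp hon]
  refine even_finrank J a b hJ hd _ fun v hv => ?_
  rw [E.mem_relOn] at hv ⊢
  intro s hs
  refine hstab s (fun f hf => ?_) (fun t ht => ?_) v (hv s hs)
  · have h1 := hVP hf
    rw [← hW, mem_idealOf] at h1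
    exact h1 s hs
  · rw [Set.mem_singleton_iff] at ht
    rw [ht]
    exact hon s hs

/-- A coordinate with finitely many values on an irreducible set is constant. -/
theorem const_of_root {A : Set (Fin N → ℂ)} (hA : (idealOf A).IsPrime) (i : Fin N) (d : ℕ) :
    ∀ q : Polynomial ℂ, q.natDegree ≤ d → q ≠ 0 → (∀ s ∈ A, q.eval (s i) = 0) →
      ∃ c, ∀ s ∈ A, s i = c := by
  induction d with
  | zero =>
    intro q hd hq h
    exfalso
    obtain ⟨s, hs⟩ := nonempty_of_prime hA
    have h1 := h s hs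
    rw [Polynomial.eq_C_of_natDegree_le_zero hd, Polynomial.eval_C] at h1
    apply hq
    rw [Polynomial.eq_C_of_natDegree_le_zero hd, h1, Polynomial.C_0]
  | succ d ih =>
    intro q hd hq h
    rcases Nat.eq_zero_or_pos q.natDegree with h0 | h0
    · exact ih q (by omega) hq h
    have hdeg : q.degree ≠ 0 := by
      rw [Polynomial.degree_eq_natDegree hq]
      exact_mod_cast h0.ne'
    obtain ⟨c, hc⟩ := IsAlgClosed.exists_root q hdeg
    obtain ⟨p, hp⟩ := Polynomial.dvd_iff_isRoot.2 hc
    have hp0 : p ≠ 0 := by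
      rintro rfl
      exact hq (by rw [hp, mul_zero])
    have hmem : (X i - C c) * Polynomial.aeval (X i : MvPolynomial (Fin N) ℂ) p ∈ idealOf A := by
      rw [mem_idealOf]
      intro s hs
      have h1 := h s hs
      rw [hp, Polynomial.eval_mul, Polynomial.eval_sub, Polynomial.eval_X, Polynomial.eval_C] at h1
      rw [map_mul, map_sub, eval_X, eval_C, ← h1]
      congr 1
      rw [← coe_aeval_eq_eval]
      change (aeval s) (Polynomial.aeval (X i) p) = _
      rw [← Polynomial.aeval_algHom_apply, aeval_X, Polynomial.coe_aeval_eq_eval]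
    rcases hA.mem_or_mem hmem with h1 | h1
    · refine ⟨c, fun s hs => ?_⟩
      have h2 := mem_idealOf.1 h1 s hs
      rw [map_sub, eval_X, eval_C, sub_eq_zero] at h2
      exact h2
    · refine ih p ?_ hp0 fun s hs => ?_
      · have h2 : q.natDegree = 1 + p.natDegree := by
          rw [hp, Polynomial.natDegree_mul (Polynomial.X_sub_C_ne_zero c) hp0,
            Polynomial.natDegree_X_sub_C]
        omega
      · have h2 := mem_idealOf.1 h1 s hs
        rw [← coe_aeval_eq_eval] at h2
        change (aeval s) (Polynomial.aeval (X i) p) = 0 at h2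
        rw [← Polynomial.aeval_algHom_apply, aeval_X, Polynomial.coe_aeval_eq_eval] at h2
        exact h2

/-- A point of finite order has one of finitely many `x`-coordinates. -/
theorem tors_root {K : Type} [Field K] [DecidableEq K] [CharZero K] {A B x y : K}
    (hΔ : 4 * A ^ 3 + 27 * B ^ 2 ≠ 0) (h : y ^ 2 = x ^ 3 + A * x + B) {k : ℕ}
    (hk : k • pt A B x y = 0) :
    (mulXZ (Polynomial.C A) (Polynomial.C B) Polynomial.X k).2.eval x = 0 := by
  have hns := Pool.Agent.W216.EZ.nonsing (A := A) (B := B) two_ne_zero hΔ h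
  have h1 := mult' K A B hΔ x y hns k
  rw [Pool.Agent.W216.EZ.pt_eq hns] at hk
  rw [hk] at h1
  have h2 := h1.2
  rw [WeierstrassCurve.Affine.Point.xRep_zero] at h2
  have h3 : (mulXZ A B x k).2 = 0 := by
    simpa using h2.symm
  have h4 := mulXZ_map (Polynomial.evalRingHom x) (Polynomial.C A) (Polynomial.C B)
    Polynomial.X k
  have h5 := congrArg Prod.snd h4
  simp only [Polynomial.coe_evalRingHom, Polynomial.eval_C, Polynomial.eval_X] at h5
  rw [← h5]
  exact h3

theorem tors_poly_ne {K : Type} [Field K] [CharZero K] (A B : K) {k : ℕ} (hk : 1 ≤ k) :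
    (mulXZ (Polynomial.C A) (Polynomial.C B) Polynomial.X k).2 ≠ 0 := by
  intro h
  obtain ⟨_, _, _, h1⟩ := Pool.Agent.W215.EZ.lead K A B k hk
  rw [h, Polynomial.coeff_zero] at h1
  have h2 : (k : K) ≠ 0 := by
    rw [Nat.cast_ne_zero]
    omega
  exact pow_ne_zero 2 h2 h1.symm

end Pool.Agent.W282.EZ
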