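import Pool.Agent.W282.DZ.Rec2

/-!
Project EZ: the recursion for an abstract system of relations.
-/

open MvPolynomial Filter
open scoped ENNReal

namespace Pool.Agent.W282.EZ

open Pool.Agent.W282.ZP Pool.Agent.W282.DZ

/-- A system of relation lattices on a set of prime ideals: relations of size less than `2 ^ e`
are detected by few polynomials of degree at most `c * 2 ^ (κ * e)`, and each new relation
increases the rank at least by `γ`. -/
structure Rels (N n κ c γ : ℕ) where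
  Adm : Ideal (MvPolynomial (Fin N) ℂ) → Prop
  prime : ∀ P, Adm P → P.IsPrime
  mid : ∀ P P' Q : Ideal (MvPolynomial (Fin N) ℂ), Adm P → Adm Q → P ≤ P' → P' ≤ Q →
    P'.IsPrime → Adm P'
  L : Ideal (MvPolynomial (Fin N) ℂ) → Submodule ℤ (Fin n → ℤ)
  mono : ∀ P Q, Adm P → Adm Q → P ≤ Q → L P ≤ L Q
  pos : 1 ≤ c
  fam : ∀ P, Adm P → ∀ e : ℕ, ∃ S : Finset (MvPolynomial (Fin N) ℂ),
    S.card * cnt (L P) (2 ^ e) ≤ c * (2 ^ e) ^ n ∧
    (∀ f ∈ S, f ∉ P ∧ f.totalDegree ≤ c * 2 ^ (κ * e)) ∧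
    (∀ Q, Adm Q → P ≤ Q → ∀ μ ∈ L Q, μ ∉ L P → (∀ j, |μ j| < (2 : ℤ) ^ (e + 1)) →
      ∃ f ∈ S, f ∈ Q) ∧
    ∀ P', Adm P' → P ≤ P' → ∀ f ∈ S, f ∈ P' →
      Module.finrank ℤ (L P) + γ ≤ Module.finrank ℤ (L P')

variable {N n κ c γ : ℕ} (D : Rels N n κ c γ)

theorem dim_le {P : Ideal (MvPolynomial (Fin N) ℂ)} (hP : P.IsPrime) : dimQ P ≤ N := by
  obtain ⟨K, i1, i2, z, hz, T, hT, h⟩ := generic_point P
  have h2 := Cardinal.toNat_le_toNat h Cardinal.natCast_lt_aleph0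
  rw [Cardinal.toNat_natCast] at h2
  have h3 : T.card ≤ N := by simpa using T.card_le_univ
  exact h2.trans h3

/-- One hypersurface section. -/
theorem exists_sec {P Q : Ideal (MvPolynomial (Fin N) ℂ)} (hP : P.IsPrime) (hQ : Q.IsPrime)
    (hPQ : P ≤ Q) {f : MvPolynomial (Fin N) ℂ} (hf : f ∈ Q) (hfP : f ∉ P) :
    ∃ P' ∈ (P ⊔ Ideal.span {f}).minimalPrimes, P' ≤ Q ∧ dimQ P' + 1 = dimQ P := by
  have hle : P ⊔ Ideal.span {f} ≤ Q := by
    refine sup_le hPQ ?_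
    rw [Ideal.span_singleton_le_iff_mem]
    exact hf
  obtain ⟨P', hP', hP'Q⟩ := Ideal.exists_minimalPrimes_le hle
  have hprime : P'.IsPrime := hP'.1.1
  have hPP' : P ≤ P' := le_sup_left.trans hP'.1.2
  have hmem : f ∈ P' := hP'.1.2 (Ideal.mem_sup_right (Ideal.mem_span_singleton_self _))
  refine ⟨P', hP', hP'Q, le_antisymm ?_ ?_⟩
  · refine Nat.succ_le_of_lt (dim_lt hP hprime (lt_of_le_of_ne hPP' ?_))
    rintro rfl
    exact hfP hmem
  · exact Pool.Agent.W338.DZ.dim N P P' f hP hfP hP'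

/-- minimality of `Q` with respect to the relations of size less than `2 ^ b` -/
def Rels.Min (P : Ideal (MvPolynomial (Fin N) ℂ)) (b : ℕ) (Q : Ideal (MvPolynomial (Fin N) ℂ)) :
    Prop :=
  ∀ Q' : Ideal (MvPolynomial (Fin N) ℂ), Q'.IsPrime → P ≤ Q' → Q' ≤ Q →
    (∀ a ∈ D.L Q, (∀ j, |a j| < (2 : ℤ) ^ b) → a ∈ D.L Q') → Q' = Q

theorem Rels.Min.mono {P P' Q : Ideal (MvPolynomial (Fin N) ℂ)} {b : ℕ} (h : D.Min P b Q)
    (hPP' : P ≤ P') : D.Min P' b Q :=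
  fun Q' h1 h2 h3 h4 => h Q' h1 (hPP'.trans h2) h3 h4

theorem Rels.exists_mu {P Q : Ideal (MvPolynomial (Fin N) ℂ)} {b : ℕ} (hP : P.IsPrime)
    (hPQ : P ≤ Q) (hmin : D.Min P b Q) (hne : P ≠ Q) :
    ∃ μ ∈ D.L Q, (∀ j, |μ j| < (2 : ℤ) ^ b) ∧ μ ∉ D.L P := by
  by_contra hcon
  push Not at hcon
  exact hne (hmin P hP le_rfl hPQ hcon)

/-- The gap. -/
theorem Rels.gap (b u : ℕ) : ∀ P Q : Ideal (MvPolynomial (Fin N) ℂ), D.Adm P → D.Adm Q → P ≤ Q →
    dimQ Q + u = dimQ P → D.Min P b Q →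
    Module.finrank ℤ (D.L P) + γ * u ≤ Module.finrank ℤ (D.L Q) := by
  induction u with
  | zero =>
    intro P Q hP hQ hPQ hd hmin
    rw [eq_of_dim (D.prime P hP) (D.prime Q hQ) hPQ (by omega), mul_zero, add_zero]
  | succ u ih =>
    intro P Q hP hQ hPQ hd hmin
    have hne : P ≠ Q := by
      rintro rfl
      omega
    obtain ⟨μ, hμQ, hμb, hμP⟩ := D.exists_mu (D.prime P hP) hPQ hmin hne
    obtain ⟨S, -, hS1, hS2, hS3⟩ := D.fam P hP b
    obtain ⟨f, hfS, hfQ⟩ := hS2 Q hQ hPQ μ hμQ hμP fun j => (hμb j).trans_le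
      (pow_le_pow_right₀ (by norm_num) (Nat.le_succ b))
    obtain ⟨P', hP', hP'Q, hd'⟩ := exists_sec (D.prime P hP) (D.prime Q hQ) hPQ hfQ (hS1 f hfS).1
    have hPP' : P ≤ P' := le_sup_left.trans hP'.1.2
    have hadm : D.Adm P' := D.mid P P' Q hP hQ hPP' hP'Q hP'.1.1
    have hmem : f ∈ P' := hP'.1.2 (Ideal.mem_sup_right (Ideal.mem_span_singleton_self _))
    have h1 := hS3 P' hadm hPP' f hfS hmem
    have h2 := ih P' Q hadm hQ hP'Q (by omega) (Rels.Min.mono D hmin hPP')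
    rw [mul_add, mul_one]
    omega

/-- `Q` is the ideal of a bad component for the tuple `lam`. -/
def Rels.Wit (P : Ideal (MvPolynomial (Fin N) ℂ)) (u i b : ℕ) {r : ℕ} (lam : Fin r → Fin n → ℤ)
    (Q : Ideal (MvPolynomial (Fin N) ℂ)) : Prop :=
  D.Adm Q ∧ P ≤ Q ∧ (∀ t, lam t ∈ D.L Q) ∧ dimQ Q + u = dimQ P ∧
    (∀ a ∈ D.L Q, (∀ j, |a j| < (2 : ℤ) ^ i) → a ∈ D.L P) ∧ D.Min P b Q ∧
    Module.finrank ℤ (D.L Q) + γ ≤ n

open Classical in
/-- The bad tuples. -/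
noncomputable def Rels.bad (P : Ideal (MvPolynomial (Fin N) ℂ)) (u i b r : ℕ) :
    Finset (Fin r → Fin n → ℤ) :=
  (box r n b).filter fun lam => ∃ Q, D.Wit P u i b lam Q

theorem Rels.mem_bad {P : Ideal (MvPolynomial (Fin N) ℂ)} {u i b r : ℕ}
    {lam : Fin r → Fin n → ℤ} :
    lam ∈ D.bad P u i b r ↔ (∀ t j, |lam t j| < (2 : ℤ) ^ b) ∧ ∃ Q, D.Wit P u i b lam Q := by
  classical
  rw [Rels.bad, Finset.mem_filter, mem_box]

theorem Rels.bad_zero {P : Ideal (MvPolynomial (Fin N) ℂ)} (hP : P.IsPrime) (i d r : ℕ) :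
    (D.bad P 0 i (i + d) r).card ≤ (cnt (D.L P) (2 ^ (i + d))) ^ r := by
  classical
  set t : Finset (Fin n → ℤ) := (cnt_finite (D.L P) (2 ^ (i + d))).toFinset with ht
  have htc : t.card = cnt (D.L P) (2 ^ (i + d)) := by
    rw [cnt, Set.ncard_eq_toFinset_card _ (cnt_finite (D.L P) _)]
  have hsub : D.bad P 0 i (i + d) r ⊆ Fintype.piFinset fun _ : Fin r => t := by
    intro lam hlam
    obtain ⟨hb, Q, hQ, hPQ, hmem, hd, -, -, -⟩ := D.mem_bad.1 hlam
    have hPQ' : P = Q := eq_of_dim hP (D.prime Q hQ) hPQ (by omega)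
    refine Fintype.mem_piFinset.2 fun s => (Set.Finite.mem_toFinset _).2 ?_
    refine ⟨?_, fun j => ?_⟩
    · rw [hPQ']
      exact hmem s
    · have := hb s j
      push_cast
      exact this
  refine (Finset.card_le_card hsub).trans (le_of_eq ?_)
  rw [Fintype.card_piFinset, Finset.prod_const, Finset.card_univ, Fintype.card_fin, htc]

/-- The sections of `P` used at the level `e`. -/
def Rels.Good (P : Ideal (MvPolynomial (Fin N) ℂ)) (u e : ℕ)
    (P' : Ideal (MvPolynomial (Fin N) ℂ)) : Prop :=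
  D.Adm P' ∧ dimQ P' + 1 = dimQ P ∧
    (∀ a ∈ D.L P', (∀ j, |a j| < (2 : ℤ) ^ e) → a ∈ D.L P) ∧
    Module.finrank ℤ (D.L P') + γ * u + γ ≤ n

open Classical in
/-- The good sections. -/
noncomputable def Rels.secs (P : Ideal (MvPolynomial (Fin N) ℂ)) (u e : ℕ)
    (f : MvPolynomial (Fin N) ℂ) : Finset (Ideal (MvPolynomial (Fin N) ℂ)) :=
  (Ideal.finite_minimalPrimes_of_isNoetherianRing (MvPolynomial (Fin N) ℂ)
    (P ⊔ Ideal.span {f})).toFinset.filter (D.Good P u e)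

theorem Rels.mem_secs {P : Ideal (MvPolynomial (Fin N) ℂ)} {u e : ℕ}
    {f : MvPolynomial (Fin N) ℂ} {P' : Ideal (MvPolynomial (Fin N) ℂ)} :
    P' ∈ D.secs P u e f ↔ P' ∈ (P ⊔ Ideal.span {f}).minimalPrimes ∧ D.Good P u e P' := by
  classical
  rw [Rels.secs, Finset.mem_filter, Set.Finite.mem_toFinset]

theorem Rels.cover {P : Ideal (MvPolynomial (Fin N) ℂ)} (hP : D.Adm P) {u i b r : ℕ}
    {S : ℕ → Finset (MvPolynomial (Fin N) ℂ)} (hSP : ∀ e, ∀ f ∈ S e, f ∉ P)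
    (hS : ∀ e, ∀ Q, D.Adm Q → P ≤ Q → ∀ μ ∈ D.L Q, μ ∉ D.L P →
      (∀ j, |μ j| < (2 : ℤ) ^ (e + 1)) → ∃ f ∈ S e, f ∈ Q)
    {lam : Fin r → Fin n → ℤ} (hlam : lam ∈ D.bad P (u + 1) i b r) :
    ∃ e ∈ Finset.Ico i b, ∃ f ∈ S e, ∃ P' ∈ D.secs P u e f, lam ∈ D.bad P' u e b r := by
  classical
  obtain ⟨hbox, Q, hQ, hPQ, hmem, hd, hsm, hmin, hrk⟩ := D.mem_bad.1 hlam
  have hne : P ≠ Q := by
    rintro rfl
    omega
  obtain ⟨μ, hμQ, hμb, hμP⟩ := D.exists_mu (D.prime P hP) hPQ hmin hne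
  have hbpos : b ≠ 0 := by
    rintro rfl
    apply hμP
    have h0 : μ = 0 := by
      funext j
      have h1 := hμb j
      rw [pow_zero] at h1
      have h2 := abs_nonneg (μ j)
      exact abs_eq_zero.1 (by omega)
    rw [h0]
    exact (D.L P).zero_mem
  have hex : ∃ e, ∃ μ ∈ D.L Q, (∀ j, |μ j| < (2 : ℤ) ^ (e + 1)) ∧ μ ∉ D.L P := by
    refine ⟨b - 1, μ, hμQ, ?_, hμP⟩
    rw [Nat.sub_add_cancel (Nat.one_le_iff_ne_zero.2 hbpos)]
    exact hμb
  obtain ⟨μ₁, hμ₁Q, hμ₁e, hμ₁P⟩ := Nat.find_spec hex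
  have hmin' := fun {m : ℕ} => Nat.find_min (H := hex) (m := m)
  have hleb : Nat.find hex < b := by
    have h1 := Nat.find_min' hex (m := b - 1) ⟨μ, hμQ, by
      rw [Nat.sub_add_cancel (Nat.one_le_iff_ne_zero.2 hbpos)]
      exact hμb, hμP⟩
    omega
  set e := Nat.find hex with he
  have hsmall : ∀ a ∈ D.L Q, (∀ j, |a j| < (2 : ℤ) ^ e) → a ∈ D.L P := by
    intro a haQ ha
    by_contra hcon
    rcases Nat.eq_zero_or_pos e with h0 | h0
    · apply hcon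
      have h3 : a = 0 := by
        funext j
        have h1 := ha j
        rw [h0, pow_zero] at h1
        have h2 := abs_nonneg (a j)
        exact abs_eq_zero.1 (by omega)
      rw [h3]
      exact (D.L P).zero_mem
    · refine hmin' (m := e - 1) (by omega) ⟨a, haQ, ?_, hcon⟩
      rw [Nat.sub_add_cancel h0]
      exact ha
  have hie : i ≤ e := by
    by_contra hlt
    push Not at hlt
    apply hμ₁P
    refine hsm μ₁ hμ₁Q fun j => (hμ₁e j).trans_le ?_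
    exact pow_le_pow_right₀ (by norm_num) hlt
  obtain ⟨f, hfS, hfQ⟩ := hS e Q hQ hPQ μ₁ hμ₁Q hμ₁P hμ₁e
  obtain ⟨P', hP', hP'Q, hd'⟩ := exists_sec (D.prime P hP) (D.prime Q hQ) hPQ hfQ (hSP e f hfS)
  have hPP' : P ≤ P' := le_sup_left.trans hP'.1.2
  have hadm : D.Adm P' := D.mid P P' Q hP hQ hPP' hP'Q hP'.1.1
  have hdd : dimQ Q + u = dimQ P' := by omega
  have hgap := D.gap b u P' Q hadm hQ hP'Q hdd (Rels.Min.mono D hmin hPP')
  refine ⟨e, Finset.mem_Ico.2 ⟨hie, hleb⟩, f, hfS, P', D.mem_secs.2 ⟨hP', hadm, hd', ?_, ?_⟩, ?_⟩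
  · intro a ha hae
    exact hsmall a (D.mono P' Q hadm hQ hP'Q ha) hae
  · omega
  · refine D.mem_bad.2 ⟨hbox, Q, hQ, hP'Q, hmem, hdd, ?_, Rels.Min.mono D hmin hPP', hrk⟩
    intro a ha hae
    exact D.mono P P' hP hadm hPP' (hsmall a ha hae)

theorem arithG {n q δ u ρ i d f C S ce ci κ c v : ℕ} (hρ : ρ ≤ n)
    (h1 : S * ce ≤ c * (2 ^ (i + d)) ^ n) (h2 : ce ≤ 3 ^ ρ * 2 ^ (d * ρ) * ci)
    (hE : (n + κ) * (u + 1) + ρ * q + δ ≤ n * (u + 1 + q)) (b : ℕ) :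
    (C * (b + 1) ^ u * ce ^ (q + 1) * 2 ^ (f * (n * (u + 1 + q) - δ)) *
      2 ^ ((i + d) * (n + κ) * u)) * (S * (2 ^ v * (c * 2 ^ (κ * (i + d))))) ≤
    C * c * 3 ^ (n * (u + 1 + q)) * 2 ^ v * c * (b + 1) ^ u * ci ^ q *
      2 ^ ((d + f) * (n * (u + 1 + q) - δ)) * 2 ^ (i * (n + κ) * (u + 1)) := by
  set r := u + 1 + q with hr
  set M := n * r - δ with hM
  have hE' : (n + κ) * (u + 1) + ρ * q ≤ M := by omega
  have h3 : ce ^ q ≤ 3 ^ (n * r) * 2 ^ (d * ρ * q) * ci ^ q := by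
    calc ce ^ q ≤ (3 ^ ρ * 2 ^ (d * ρ) * ci) ^ q := Nat.pow_le_pow_left h2 q
      _ = 3 ^ (ρ * q) * 2 ^ (d * ρ * q) * ci ^ q := by
          rw [mul_pow, mul_pow, ← pow_mul, ← pow_mul]
      _ ≤ 3 ^ (n * r) * 2 ^ (d * ρ * q) * ci ^ q := by
          have h4 : ρ * q ≤ n * r := Nat.mul_le_mul hρ (by omega)
          gcongr
          norm_num
  have h5 : 2 ^ ((i + d) * n) * 2 ^ (d * ρ * q) * 2 ^ (f * M) * 2 ^ ((i + d) * (n + κ) * u) *
      2 ^ (κ * (i + d)) ≤ 2 ^ ((d + f) * M) * 2 ^ (i * (n + κ) * (u + 1)) := by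
    rw [← pow_add, ← pow_add, ← pow_add, ← pow_add, ← pow_add]
    refine Nat.pow_le_pow_right (by norm_num) ?_
    have h6 : d * ((n + κ) * (u + 1) + ρ * q) ≤ d * M := Nat.mul_le_mul_left d hE'
    calc (i + d) * n + d * ρ * q + f * M + (i + d) * (n + κ) * u + κ * (i + d)
        = d * ((n + κ) * (u + 1) + ρ * q) + f * M + i * (n + κ) * (u + 1) := by ring
      _ ≤ d * M + f * M + i * (n + κ) * (u + 1) := by omega
      _ = (d + f) * M + i * (n + κ) * (u + 1) := by ring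
  calc (C * (b + 1) ^ u * ce ^ (q + 1) * 2 ^ (f * M) * 2 ^ ((i + d) * (n + κ) * u)) *
        (S * (2 ^ v * (c * 2 ^ (κ * (i + d)))))
      = C * (b + 1) ^ u * (S * ce) * ce ^ q * 2 ^ (f * M) * 2 ^ ((i + d) * (n + κ) * u) *
        (2 ^ v * c * 2 ^ (κ * (i + d))) := by ring
    _ ≤ C * (b + 1) ^ u * (c * (2 ^ (i + d)) ^ n) * (3 ^ (n * r) * 2 ^ (d * ρ * q) * ci ^ q) *
        2 ^ (f * M) * 2 ^ ((i + d) * (n + κ) * u) * (2 ^ v * c * 2 ^ (κ * (i + d))) := by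
        gcongr
    _ = (C * c * 3 ^ (n * r) * 2 ^ v * c * (b + 1) ^ u * ci ^ q) *
        (2 ^ ((i + d) * n) * 2 ^ (d * ρ * q) * 2 ^ (f * M) * 2 ^ ((i + d) * (n + κ) * u) *
        2 ^ (κ * (i + d))) := by
        rw [← pow_mul]
        ring
    _ ≤ (C * c * 3 ^ (n * r) * 2 ^ v * c * (b + 1) ^ u * ci ^ q) *
        (2 ^ ((d + f) * M) * 2 ^ (i * (n + κ) * (u + 1))) := Nat.mul_le_mul_left _ h5
    _ = _ := by ring

theorem Rels.recursion (N n κ c γ r δ : ℕ) (u : ℕ) : ∃ C : ℕ, ∀ D : Rels N n κ c γ,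
    ∀ P : Ideal (MvPolynomial (Fin N) ℂ), D.Adm P → ∀ i d : ℕ, u < r →
    (∀ u' < u, κ * u' + δ ≤ γ * (1 + u') * (r - u')) →
    (n + κ) * u + Module.finrank ℤ (D.L P) * (r - u) + δ ≤ n * r →
    ((D.bad P u i (i + d) r).card : ℝ≥0∞) ≤
      ((C * (i + d + 1) ^ u * (cnt (D.L P) (2 ^ i)) ^ (r - u) * 2 ^ (d * (n * r - δ)) *
        2 ^ (i * (n + κ) * u) : ℕ) : ℝ≥0∞) * Deg (dimQ P) P := by
  classical
  induction u with
  | zero =>
    refine ⟨3 ^ (n * r) * N ^ N, fun D P hP i d hu _ hE => ?_⟩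
    set L := D.L P with hL
    set ρ := Module.finrank ℤ L with hρ
    have hρn : ρ ≤ n := by
      have h1 := Submodule.finrank_le L
      rwa [Module.finrank_fintype_fun_eq_card, Fintype.card_fin] at h1
    have h1 := D.bad_zero (D.prime P hP) i d r
    have h2 := cnt_grow L i d
    rw [← hρ] at h2
    have h3 : (D.bad P 0 i (i + d) r).card ≤
        3 ^ (n * r) * (cnt L (2 ^ i)) ^ r * 2 ^ (d * (n * r - δ)) := by
      refine h1.trans ?_
      calc (cnt L (2 ^ (i + d))) ^ r ≤ (3 ^ ρ * 2 ^ (d * ρ) * cnt L (2 ^ i)) ^ r :=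
            Nat.pow_le_pow_left h2 r
        _ = 3 ^ (ρ * r) * (cnt L (2 ^ i)) ^ r * 2 ^ (d * (ρ * r)) := by
            rw [mul_pow, mul_pow, ← pow_mul, ← pow_mul]
            ring
        _ ≤ 3 ^ (n * r) * (cnt L (2 ^ i)) ^ r * 2 ^ (d * (n * r - δ)) := by
            have h4 : ρ * r ≤ n * r := Nat.mul_le_mul_right r hρn
            have h5 : ρ * r ≤ n * r - δ := by
              rw [Nat.sub_zero] at hE
              omega
            have h6 : d * (ρ * r) ≤ d * (n * r - δ) := Nat.mul_le_mul_left d h5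
            gcongr
            · norm_num
            · norm_num
    have h7 := one_le_deg (D.prime P hP) (dim_le (D.prime P hP))
    calc ((D.bad P 0 i (i + d) r).card : ℝ≥0∞)
        ≤ ((3 ^ (n * r) * (cnt L (2 ^ i)) ^ r * 2 ^ (d * (n * r - δ)) : ℕ) : ℝ≥0∞) := by
          exact_mod_cast h3
      _ = ((3 ^ (n * r) * (cnt L (2 ^ i)) ^ r * 2 ^ (d * (n * r - δ)) : ℕ) : ℝ≥0∞) * 1 :=
          (mul_one _).symm
      _ ≤ ((3 ^ (n * r) * (cnt L (2 ^ i)) ^ r * 2 ^ (d * (n * r - δ)) : ℕ) : ℝ≥0∞) *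
          (((N ^ N : ℕ) : ℝ≥0∞) * Deg (dimQ P) P) := mul_le_mul' le_rfl h7
      _ = _ := by
          rw [← mul_assoc, ← Nat.cast_mul]
          congr 2
          rw [pow_zero, Nat.sub_zero, Nat.mul_zero, pow_zero]
          ring
  | succ u ih =>
    obtain ⟨C, hC⟩ := ih
    refine ⟨C * c * 3 ^ (n * r) * 2 ^ (N + 1) * c, fun D P hP i d hu hI hE => ?_⟩
    set L := D.L P with hL
    set ρ := Module.finrank ℤ L with hρ
    have hρn : ρ ≤ n := by
      have h1 := Submodule.finrank_le L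
      rwa [Module.finrank_fintype_fun_eq_card, Fintype.card_fin] at h1
    have hdN := dim_le (D.prime P hP)
    rcases (D.bad P (u + 1) i (i + d) r).eq_empty_or_nonempty with hemp | hne
    · rw [hemp]
      simp
    obtain ⟨lam0, hlam0⟩ := hne
    obtain ⟨-, Q0, hQ0, -, -, hd0, -, -, hrk0⟩ := D.mem_bad.1 hlam0
    obtain ⟨w, hw⟩ : ∃ w, dimQ P = w + 1 := ⟨dimQ P - 1, by omega⟩
    obtain ⟨q, hq⟩ : ∃ q, r = u + 1 + q := ⟨r - (u + 1), by omega⟩
    have hq1 : 1 ≤ q := by omega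
    choose S hScard hS1 hS2 hS3 using fun e => D.fam P hP e
    -- the cover
    have hcov : D.bad P (u + 1) i (i + d) r ⊆ (Finset.Ico i (i + d)).biUnion fun e =>
        (S e).biUnion fun f => (D.secs P u e f).biUnion fun P' => D.bad P' u e (i + d) r := by
      intro lam hlam
      obtain ⟨e, he, f, hf, P', hP', hl⟩ := D.cover hP (fun e f hf => (hS1 e f hf).1) hS2 hlam
      exact Finset.mem_biUnion.2 ⟨e, he, Finset.mem_biUnion.2 ⟨f, hf,
        Finset.mem_biUnion.2 ⟨P', hP', hl⟩⟩⟩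
    have hsum : (D.bad P (u + 1) i (i + d) r).card ≤ ∑ e ∈ Finset.Ico i (i + d), ∑ f ∈ S e,
        ∑ P' ∈ D.secs P u e f, (D.bad P' u e (i + d) r).card := by
      refine (Finset.card_le_card hcov).trans (Finset.card_biUnion_le.trans ?_)
      refine Finset.sum_le_sum fun e _ => Finset.card_biUnion_le.trans ?_
      exact Finset.sum_le_sum fun f _ => Finset.card_biUnion_le
    -- one section
    set M := n * r - δ with hM
    have hone : ∀ e ∈ Finset.Ico i (i + d), ∀ f ∈ S e, ∀ P' ∈ D.secs P u e f,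
        ((D.bad P' u e (i + d) r).card : ℝ≥0∞) ≤
        ((C * (i + d + 1) ^ u * (cnt L (2 ^ e)) ^ (q + 1) * 2 ^ ((i + d - e) * M) *
          2 ^ (e * (n + κ) * u) : ℕ) : ℝ≥0∞) * Deg w P' := by
      intro e he f hf P' hP'
      obtain ⟨hP'm, hadm, hd', hsm, hrk⟩ := D.mem_secs.1 hP'
      have hw' : dimQ P' = w := by omega
      rw [Finset.mem_Ico] at he
      obtain ⟨g, hg⟩ : ∃ g, i + d = e + g := ⟨i + d - e, by omega⟩
      have hE' : (n + κ) * u + Module.finrank ℤ (D.L P') * (r - u) + δ ≤ n * r := by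
        have hI' := hI u (Nat.lt_succ_self u)
        obtain ⟨l, hl⟩ : ∃ l, n = Module.finrank ℤ (D.L P') + γ * u + γ + l :=
          ⟨n - (Module.finrank ℤ (D.L P') + γ * u + γ), by omega⟩
        obtain ⟨k, hk⟩ : ∃ k, r = u + k := ⟨r - u, by omega⟩
        have hru : r - u = k := by omega
        rw [hru] at hI' ⊢
        generalize Module.finrank ℤ (D.L P') = ρ' at hl
        rw [hl, hk]
        nlinarith [Nat.zero_le (l * k), Nat.zero_le (l * u)]
      have h1 := hC D P' hadm e g (by omega) (fun u' hu' => hI u' (by omega)) hE'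
      rw [hw'] at h1
      have hcm : cnt (D.L P') (2 ^ e) ≤ cnt L (2 ^ e) := by
        refine cnt_mono fun a ha hae => hsm a ha fun j => ?_
        have := hae j
        push_cast at this
        exact this
      have hrq : r - u = q + 1 := by omega
      rw [hrq] at h1
      rw [hg]
      have hef : e + g - e = g := by omega
      rw [hef]
      refine h1.trans ?_
      refine mul_le_mul' ?_ le_rfl
      refine Nat.cast_le.2 ?_
      gcongr
    -- sum over the sections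
    have hbez : ∀ e ∈ Finset.Ico i (i + d), ∀ f ∈ S e, ∑ P' ∈ D.secs P u e f, Deg w P' ≤
        ((2 ^ (N + 1) * (c * 2 ^ (κ * e)) : ℕ) : ℝ≥0∞) * Deg (dimQ P) P := by
      intro e he f hf
      have hM1 : 1 ≤ c * 2 ^ (κ * e) :=
        Nat.one_le_iff_ne_zero.2 (Nat.mul_ne_zero (by have := D.pos; omega) (by positivity))
      have h1 := Pool.Agent.W125.DZ.bez Pool.Agent.W563.DZ.mul Pool.Agent.W563.DZ.sum N w
        (c * 2 ^ (κ * e)) P f (D.secs P u e f) (D.prime P hP) (hS1 e f hf).1 (hS1 e f hf).2 hM1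
        (fun Q hQ => by
          obtain ⟨hQm, -⟩ := D.mem_secs.1 hQ
          exact ⟨hQm.1.1, le_sup_left.trans hQm.1.2,
            hQm.1.2 (Ideal.mem_sup_right (Ideal.mem_span_singleton_self _))⟩)
        (fun Q hQ Q' hQ' hle => by
          obtain ⟨hQm, -⟩ := D.mem_secs.1 hQ
          obtain ⟨hQm', -⟩ := D.mem_secs.1 hQ'
          exact le_antisymm hle (hQm'.2 hQm.1 hle))
      rw [← hw] at h1
      refine h1.trans ?_
      have h2 : (2 : ℝ≥0∞) ^ (w + 2) * ((c * 2 ^ (κ * e) : ℕ) : ℝ≥0∞) =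
          ((2 ^ (w + 2) * (c * 2 ^ (κ * e)) : ℕ) : ℝ≥0∞) := by push_cast; ring
      rw [h2]
      refine mul_le_mul' ?_ le_rfl
      refine Nat.cast_le.2 (Nat.mul_le_mul_right _ (Nat.pow_le_pow_right (by norm_num) ?_))
      omega
    -- assemble
    have hfin : ∀ e ∈ Finset.Ico i (i + d), (∑ f ∈ S e, ∑ P' ∈ D.secs P u e f,
        ((D.bad P' u e (i + d) r).card : ℝ≥0∞)) ≤
        ((C * c * 3 ^ (n * r) * 2 ^ (N + 1) * c * (i + d + 1) ^ u * cnt L (2 ^ i) ^ q *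
          2 ^ (d * M) * 2 ^ (i * (n + κ) * (u + 1)) : ℕ) : ℝ≥0∞) * Deg (dimQ P) P := by
      intro e he
      have he' := Finset.mem_Ico.1 he
      set K : ℕ := C * (i + d + 1) ^ u * (cnt L (2 ^ e)) ^ (q + 1) * 2 ^ ((i + d - e) * M) *
          2 ^ (e * (n + κ) * u) with hK
      calc (∑ f ∈ S e, ∑ P' ∈ D.secs P u e f, ((D.bad P' u e (i + d) r).card : ℝ≥0∞))
          ≤ ∑ f ∈ S e, ∑ P' ∈ D.secs P u e f, (K : ℝ≥0∞) * Deg w P' :=
            Finset.sum_le_sum fun f hf => Finset.sum_le_sum fun P' hP' => hone e he f hf P' hP'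
        _ = ∑ f ∈ S e, (K : ℝ≥0∞) * ∑ P' ∈ D.secs P u e f, Deg w P' :=
            Finset.sum_congr rfl fun f _ => (Finset.mul_sum _ _ _).symm
        _ ≤ ∑ f ∈ S e, (K : ℝ≥0∞) *
            (((2 ^ (N + 1) * (c * 2 ^ (κ * e)) : ℕ) : ℝ≥0∞) * Deg (dimQ P) P) :=
            Finset.sum_le_sum fun f hf => mul_le_mul' le_rfl (hbez e he f hf)
        _ = ((K * ((S e).card * (2 ^ (N + 1) * (c * 2 ^ (κ * e)))) : ℕ) : ℝ≥0∞) *
            Deg (dimQ P) P := by
            rw [Finset.sum_const, nsmul_eq_mul]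
            push_cast
            ring
        _ ≤ _ := by
            refine mul_le_mul' (Nat.cast_le.2 ?_) le_rfl
            obtain ⟨d', hd'⟩ : ∃ d', e = i + d' := ⟨e - i, by omega⟩
            obtain ⟨g, hg⟩ : ∃ g, d = d' + g := ⟨d - d', by omega⟩
            have h1 := hScard e
            have h2 := cnt_grow L i d'
            rw [← hd', ← hρ] at h2
            rw [hd'] at h1 h2
            have h3 := arithG (n := n) (q := q) (δ := δ) (u := u) (ρ := ρ) (i := i) (d := d')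
              (f := g) (C := C) (S := (S (i + d')).card) (ce := cnt L (2 ^ (i + d')))
              (ci := cnt L (2 ^ i)) (κ := κ) (c := c) (v := N + 1) hρn h1 h2 (by
                rw [← hq]
                have : r - (u + 1) = q := by omega
                rw [this] at hE
                exact hE) (i + d)
            rw [← hq, ← hM, ← hg] at h3
            rw [hK, hd']
            have hef : i + d - (i + d') = g := by omega
            rw [hef]
            exact h3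
    have hcount : ((Finset.Ico i (i + d)).card : ℝ≥0∞) ≤ ((i + d + 1 : ℕ) : ℝ≥0∞) := by
      rw [Nat.card_Ico]
      exact Nat.cast_le.2 (by omega)
    calc ((D.bad P (u + 1) i (i + d) r).card : ℝ≥0∞)
        ≤ ((∑ e ∈ Finset.Ico i (i + d), ∑ f ∈ S e,
          ∑ P' ∈ D.secs P u e f, (D.bad P' u e (i + d) r).card : ℕ) : ℝ≥0∞) :=
          Nat.cast_le.2 hsum
      _ = ∑ e ∈ Finset.Ico i (i + d), ∑ f ∈ S e,
          ∑ P' ∈ D.secs P u e f, ((D.bad P' u e (i + d) r).card : ℝ≥0∞) := by push_cast; rfl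
      _ ≤ ∑ e ∈ Finset.Ico i (i + d), ((C * c * 3 ^ (n * r) * 2 ^ (N + 1) * c *
          (i + d + 1) ^ u * cnt L (2 ^ i) ^ q *
          2 ^ (d * M) * 2 ^ (i * (n + κ) * (u + 1)) : ℕ) : ℝ≥0∞) * Deg (dimQ P) P :=
          Finset.sum_le_sum hfin
      _ = ((Finset.Ico i (i + d)).card : ℝ≥0∞) * (((C * c * 3 ^ (n * r) * 2 ^ (N + 1) * c *
          (i + d + 1) ^ u * cnt L (2 ^ i) ^ q *
          2 ^ (d * M) * 2 ^ (i * (n + κ) * (u + 1)) : ℕ) : ℝ≥0∞) * Deg (dimQ P) P) := by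
          rw [Finset.sum_const, nsmul_eq_mul]
      _ ≤ ((i + d + 1 : ℕ) : ℝ≥0∞) * (((C * c * 3 ^ (n * r) * 2 ^ (N + 1) * c *
          (i + d + 1) ^ u * cnt L (2 ^ i) ^ q *
          2 ^ (d * M) * 2 ^ (i * (n + κ) * (u + 1)) : ℕ) : ℝ≥0∞) * Deg (dimQ P) P) :=
          mul_le_mul' hcount le_rfl
      _ = _ := by
          rw [← mul_assoc, ← Nat.cast_mul]
          congr 2
          have : r - (u + 1) = q := by omega
          rw [this]
          ring

end Pool.Agent.W282.EZ
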