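import Pool.Agent.W282.EZ.Inst
import Pool.Agent.W282.DZ.Top

/-!
Project EZ: from the recursion to tuples of relations.
-/

open MvPolynomial Filter
open scoped ENNReal

namespace Pool.Agent.W282.EZ

open Pool.Agent.W282.ZP Pool.Agent.W282.DZ

/-- The polynomial of the relations up to signs. -/
noncomputable def kum (n : ℕ) : MvPolynomial (Fin 2 ⊕ Fin n × Fin 2) ℤ :=
  (Pool.Agent.W591.EZ.kum Pool.Agent.W216.EZ.addsub n).choose

theorem kum_spec (n : ℕ) : IsKum n (kum n) :=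
  (Pool.Agent.W591.EZ.kum Pool.Agent.W216.EZ.addsub n).choose_spec

variable {N n : ℕ} (E : Sec N n)

/-- The scheme and the sections are defined at all points of `V`. -/
def Sec.On (V : Set (Fin N → ℂ)) : Prop :=
  ∀ s ∈ V, eval s (4 * E.A ^ 3 + 27 * E.B ^ 2) ≠ 0 ∧
    ∀ j, eval s (E.Y j ^ 2 - (E.X j ^ 3 + E.A * E.X j * E.T j ^ 4 + E.B * E.T j ^ 6)) = 0 ∧
      (eval s (E.X j) ≠ 0 ∨ eval s (E.T j) ≠ 0)

/-- The relations on `V`. -/
noncomputable def Sec.relOn (V : Set (Fin N → ℂ)) : Submodule ℤ (Fin n → ℤ) :=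
  ⨅ s ∈ V, E.rel (eval s)

theorem Sec.mem_relOn {V : Set (Fin N → ℂ)} {a : Fin n → ℤ} :
    a ∈ E.relOn V ↔ ∀ s ∈ V, a ∈ E.rel (eval s) := by
  simp [Sec.relOn, Submodule.mem_iInf]

theorem Sec.relOn_anti {V W : Set (Fin N → ℂ)} (h : V ⊆ W) : E.relOn W ≤ E.relOn V := by
  intro a ha
  rw [E.mem_relOn] at ha ⊢
  exact fun s hs => ha s (h hs)

theorem Sec.adm_idealOf {A : Set (Fin N → ℂ)} (hA : (idealOf A).IsPrime) (h : E.On A) :
    E.Adm (idealOf A) := by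
  refine ⟨hA, fun hmem => ?_, fun j => ?_⟩
  · obtain ⟨s, hs⟩ := nonempty_of_prime hA
    exact (h s hs).1 (mem_idealOf.1 hmem s hs)
  · refine ⟨mem_idealOf.2 fun s hs => ((h s hs).2 j).1, ?_⟩
    obtain ⟨s, hs⟩ := nonempty_of_prime hA
    exact (((h s hs).2 j).2).imp (fun h1 h2 => h1 (mem_idealOf.1 h2 s hs))
      fun h1 h2 => h1 (mem_idealOf.1 h2 s hs)

theorem mem_idealOf_point (s : Fin N → ℂ) (f : MvPolynomial (Fin N) ℂ) :
    eval s f = 0 ↔ f ∈ idealOf ({s} : Set (Fin N → ℂ)) := by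
  rw [mem_idealOf]
  simp

theorem prime_point (s : Fin N → ℂ) : (idealOf ({s} : Set (Fin N → ℂ))).IsPrime := by
  have h : idealOf ({s} : Set (Fin N → ℂ)) = RingHom.ker (eval s : MvPolynomial (Fin N) ℂ →+* ℂ) := by
    ext f
    rw [RingHom.mem_ker, mem_idealOf_point]
  rw [h]
  exact RingHom.ker_isPrime _

/-- The relations at the generic point are the relations at all points. -/
theorem Sec.L_idealOf {A : Set (Fin N → ℂ)} (hA : (idealOf A).IsPrime) (h : E.On A) :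
    E.L (idealOf A) = E.relOn A := by
  have hadm := E.adm_idealOf hA h
  have hle : E.L (idealOf A) ≤ E.relOn A := by
    intro a ha
    rw [E.mem_relOn]
    intro s hs
    have h1 : idealOf A ≤ idealOf ({s} : Set (Fin N → ℂ)) :=
      idealOf_anti (Set.singleton_subset_iff.2 hs)
    have h2 : E.Adm (idealOf ({s} : Set (Fin N → ℂ))) :=
      E.adm_idealOf (prime_point s) (fun t ht => by
        rw [Set.mem_singleton_iff] at ht
        rw [ht]
        exact h s hs)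
    rw [← E.L_eq (prime_point s) (eval s) (mem_idealOf_point s)]
    exact (E.spec hadm h2 h1).1 ha
  refine le_antisymm hle fun μ hμ => ?_
  by_contra hcon
  obtain ⟨t, ht⟩ : ∃ t : ℕ, ∀ j, |μ j| < (2 : ℤ) ^ t := by
    refine ⟨∑ j, (μ j).natAbs, fun j => ?_⟩
    have h1 : (μ j).natAbs < 2 ^ (∑ j, (μ j).natAbs) :=
      (Nat.lt_two_pow_self).trans_le (Nat.pow_le_pow_right (by norm_num)
        (Finset.single_le_sum (f := fun j => (μ j).natAbs) (fun _ _ => Nat.zero_le _)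
          (Finset.mem_univ j)))
    rw [Int.abs_eq_natAbs]
    exact_mod_cast h1
  obtain ⟨μ', h1, h2, -⟩ := exists_noVar hle n t μ (by
    simpa using Finset.card_le_univ (Finset.univ.filter fun j => μ j ≠ 0)) hμ hcon ht
  apply h2
  rw [← E.mem_kp (kum_spec n) hadm, mem_idealOf]
  intro s hs
  rw [E.rel_kp (kum_spec n) (eval s) (h s hs).1 (fun j => ((h s hs).2 j).1)
    fun j => ((h s hs).2 j).2]
  exact ⟨fun _ => 1, fun _ => Or.inl rfl, by simpa using E.mem_relOn.1 h1 s hs⟩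

/-- All sections are torsion points of bounded order on `A`. -/
def Sec.Tors (A : Set (Fin N → ℂ)) : Prop :=
  ∃ k : ℕ, 0 < k ∧ ∀ j, (k : ℤ) • (Pi.single j (1 : ℤ) : Fin n → ℤ) ∈ E.relOn A

theorem Sec.tors_of_finrank {A : Set (Fin N → ℂ)} {L : Submodule ℤ (Fin n → ℤ)}
    (hL : L ≤ E.relOn A) (hrk : Module.finrank ℤ L = n) : E.Tors A := by
  have hk : ∀ j : Fin n, ∃ k : ℤ, k ≠ 0 ∧ k • (Pi.single j (1 : ℤ) : Fin n → ℤ) ∈ L := by
    intro j
    by_contra hcon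
    push Not at hcon
    have h2 := finrank_succ (L := L) (L' := ⊤) le_top
      (μ := (Pi.single j (1 : ℤ) : Fin n → ℤ)) Submodule.mem_top hcon
    rw [finrank_top, Module.finrank_fintype_fun_eq_card, Fintype.card_fin] at h2
    omega
  choose k hk0 hk using hk
  refine ⟨∏ j, (k j).natAbs, Finset.prod_pos fun j _ => Int.natAbs_pos.2 (hk0 j), fun j => ?_⟩
  obtain ⟨c, hc⟩ : k j ∣ ((∏ j, (k j).natAbs : ℕ) : ℤ) := by
    rw [← Int.dvd_natAbs, Int.natAbs_natCast]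
    exact (Int.dvd_natAbs.2 dvd_rfl).trans
      (Int.natCast_dvd_natCast.2 (Finset.dvd_prod_of_mem _ (Finset.mem_univ j)))
  rw [hc, mul_comm, mul_smul]
  exact hL (L.smul_mem c (hk j))

/-- The system of relations of `E` over `V`. -/
noncomputable def Sec.sys {D : ℕ} (hD : 1 ≤ D) (hE : E.DegLE D)
    (P₀ : Ideal (MvPolynomial (Fin N) ℂ)) (γ : ℕ)
    (hγ : ∀ P, E.Adm P → P₀ ≤ P → γ ∣ Module.finrank ℤ (E.L P)) :
    Rels N n 2 (cst n D (kum n)) γ :=
  E.rels (kum_spec n) hD hE P₀ γ hγ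

/-- A bad subset of `V` gives a bad component. -/
theorem Sec.exists_wit {D : ℕ} (hD : 1 ≤ D) (hE : E.DegLE D)
    {V A : Set (Fin N → ℂ)} (hV : (idealOf V).IsPrime) (hon : E.On V) {γ : ℕ}
    (hγ : ∀ P, E.Adm P → idealOf V ≤ P → γ ∣ Module.finrank ℤ (E.L P)) (hγn : γ ∣ n)
    (hAV : A ⊆ V) (hAp : (idealOf A).IsPrime) {r b : ℕ}
    {lam : Fin r → Fin n → ℤ} (hb : ∀ t j, |lam t j| < (2 : ℤ) ^ b)
    (hrel : ∀ t, lam t ∈ E.relOn A)
    (hdim : dimQ (idealOf V) < dimQ (idealOf A) + r) (hnt : ¬ E.Tors A) :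
    ∃ u < r, u ≤ dimQ (idealOf V) ∧
      lam ∈ (E.sys hD hE (idealOf V) γ hγ).bad (idealOf V) u 0 (0 + b) r ∧
      Module.finrank ℤ (E.L (idealOf V)) + γ * u + γ ≤ n := by
  classical
  have honA : E.On A := fun s hs => hon s (hAV hs)
  have hVadm := E.adm_idealOf hV hon
  have hAadm := E.adm_idealOf hAp honA
  have hVA : idealOf V ≤ idealOf A := idealOf_anti hAV
  have hlamA : ∀ t, lam t ∈ E.L (idealOf A) := fun t => by
    rw [E.L_idealOf hAp honA]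
    exact hrel t
  have hmid : ∀ Q : Ideal (MvPolynomial (Fin N) ℂ), Q.IsPrime → idealOf V ≤ Q → Q ≤ idealOf A →
      E.Adm Q := fun Q hQ h1 h2 =>
    ⟨hQ, fun h => hAadm.2.1 (h2 h), fun j => ⟨h1 (hVadm.2.2 j).1,
      ((hAadm.2.2 j).2).imp (fun h h' => h (h2 h')) fun h h' => h (h2 h')⟩⟩
  -- the component
  let good : Ideal (MvPolynomial (Fin N) ℂ) → Prop := fun Q =>
    Q.IsPrime ∧ idealOf V ≤ Q ∧ Q ≤ idealOf A ∧ ∀ t, lam t ∈ E.L Q
  have hex : ∃ k, ∃ Q, good Q ∧ N - dimQ Q = k :=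
    ⟨_, idealOf A, ⟨hAp, hVA, le_rfl, hlamA⟩, rfl⟩
  obtain ⟨Q, ⟨hQ, hVQ, hQA, hlamQ⟩, hQk⟩ := Nat.find_spec hex
  have hQmax : ∀ Q', good Q' → dimQ Q' ≤ dimQ Q := by
    intro Q' hQ'
    have h1 := Nat.find_min' hex ⟨Q', hQ', rfl⟩
    have h2 := dim_le hQ
    have h3 := dim_le hQ'.1
    omega
  have hQadm := hmid Q hQ hVQ hQA
  have hd1 : dimQ (idealOf A) ≤ dimQ Q := hQmax _ ⟨hAp, hVA, le_rfl, hlamA⟩
  have hd2 : dimQ Q ≤ dimQ (idealOf V) := by
    rcases hVQ.eq_or_lt with h | h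
    · rw [h]
    · exact (dim_lt hV hQ h).le
  set S := E.sys hD hE (idealOf V) γ hγ with hS
  have hmin : S.Min (idealOf V) b Q := by
    intro Q' hQ' hVQ' hQ'Q hsm
    have h1 : good Q' := ⟨hQ', hVQ', hQ'Q.trans hQA, fun t => hsm _ (hlamQ t) (hb t)⟩
    exact eq_of_dim hQ' hQ hQ'Q (hQmax Q' h1)
  have hrk : Module.finrank ℤ (E.L Q) + γ ≤ n := by
    have h1 : Module.finrank ℤ (E.L Q) ≤ n := by
      have h2 := Submodule.finrank_le (E.L Q)
      rwa [Module.finrank_fintype_fun_eq_card, Fintype.card_fin] at h2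
    have h2 : Module.finrank ℤ (E.L Q) ≠ n := by
      intro h3
      apply hnt
      refine E.tors_of_finrank ?_ h3
      rw [← E.L_idealOf hAp honA]
      exact (E.spec hQadm hAadm hQA).1
    obtain ⟨a, ha⟩ := hγ Q hQadm hVQ
    obtain ⟨c, hc⟩ := hγn
    have h4 : a < c := by
      by_contra hcon
      push Not at hcon
      have := Nat.mul_le_mul_left γ hcon
      omega
    calc Module.finrank ℤ (E.L Q) + γ = γ * (a + 1) := by rw [ha]; ring
      _ ≤ γ * c := Nat.mul_le_mul_left γ h4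
      _ = n := hc.symm
  have hu : dimQ Q + (dimQ (idealOf V) - dimQ Q) = dimQ (idealOf V) := by omega
  have hgap := S.gap b _ (idealOf V) Q ⟨hVadm, le_rfl⟩ ⟨hQadm, hVQ⟩ hVQ hu hmin
  refine ⟨dimQ (idealOf V) - dimQ Q, by omega, by omega, ?_, ?_⟩
  · rw [Nat.zero_add]
    refine S.mem_bad.2 ⟨hb, Q, ⟨hQadm, hVQ⟩, hVQ, hlamQ, hu, ?_, hmin, hrk⟩
    intro a ha hsm
    have h3 : a = 0 := by
      funext j
      have h1 := hsm j
      rw [pow_zero] at h1
      have h2 := abs_nonneg (a j)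
      exact abs_eq_zero.1 (by omega)
    rw [h3]
    exact (S.L (idealOf V)).zero_mem
  · exact (Nat.add_le_add_right hgap γ).trans hrk

/-- All tuples of size at most `B` outside a set of at most `M` tuples are typical for `V`. -/
def Sec.AllBut (V : Set (Fin N → ℂ)) (r B : ℕ) (M : ℝ≥0∞) : Prop :=
  ∃ X : Finset (Fin r → Fin n → ℤ), (X.card : ℝ≥0∞) ≤ M ∧
    ∀ lam : Fin r → Fin n → ℤ, lam ∉ X → (∀ t j, |lam t j| ≤ (B : ℤ)) →
      ∀ A ⊆ V, (idealOf A).IsPrime → (∀ t, lam t ∈ E.relOn A) →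
      dimQ (idealOf A) + r ≤ dimQ (idealOf V) ∨ E.Tors A

theorem main (N n r δ D γ : ℕ) (hD : 1 ≤ D) (hγn : γ ∣ n) : ∃ C : ℕ,
    ∀ E : Sec N n, E.DegLE D →
    ∀ V : Set (Fin N → ℂ), (idealOf V).IsPrime → E.On V →
    (∀ P, E.Adm P → idealOf V ≤ P → γ ∣ Module.finrank ℤ (E.L P)) →
    (∀ u < r, u ≤ dimQ (idealOf V) → Module.finrank ℤ (E.relOn V) + γ * u + γ ≤ n →
      (∀ u' < u, 2 * u' + δ ≤ γ * (1 + u') * (r - u')) ∧
      (n + 2) * u + Module.finrank ℤ (E.relOn V) * (r - u) + δ ≤ n * r) →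
    ∀ B : ℕ, 2 ≤ B → E.AllBut V r B (((C * B ^ (n * r - δ) * Nat.log 2 B ^ r : ℕ) : ℝ≥0∞) *
      Deg (dimQ (idealOf V)) (idealOf V)) := by
  classical
  choose C hC using fun u => Rels.recursion N n 2 (cst n D (kum n)) γ r δ u
  refine ⟨(∑ u ∈ Finset.range r, C u) * 3 ^ r * 2 ^ (n * r - δ),
    fun E hdeg V hV hon hγ hE B hB2 => ?_⟩
  have hLV := E.L_idealOf hV hon
  have hVadm := E.adm_idealOf hV hon
  rw [← hLV] at hE
  set P := idealOf V with hPdef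
  set S := E.sys hD hdeg P γ hγ with hS
  let U : Finset ℕ := (Finset.range r).filter fun u =>
    (∀ u' < u, 2 * u' + δ ≤ γ * (1 + u') * (r - u')) ∧
    (n + 2) * u + Module.finrank ℤ (E.L P) * (r - u) + δ ≤ n * r
  set l := Nat.log 2 B with hl
  have hl1 : 1 ≤ l := Nat.log_pos (by norm_num) hB2
  have hB1 : B < 2 ^ (l + 1) := Nat.lt_pow_succ_log_self (by norm_num) B
  have hB2' : 2 ^ l ≤ B := Nat.pow_log_le_self 2 (by omega)
  refine ⟨U.biUnion fun u => S.bad P u 0 (0 + (l + 1)) r, ?_, ?_⟩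
  · have hu : ∀ u ∈ U, ((S.bad P u 0 (0 + (l + 1)) r).card : ℝ≥0∞) ≤
        ((C u * ((3 * l) ^ r * (2 * B) ^ (n * r - δ)) : ℕ) : ℝ≥0∞) * Deg (dimQ P) P := by
      intro u hu
      obtain ⟨hur, hI', hE'⟩ := Finset.mem_filter.1 hu
      rw [Finset.mem_range] at hur
      have h1 := hC u S P ⟨hVadm, le_rfl⟩ 0 (l + 1) hur hI' hE'
      refine h1.trans (mul_le_mul' (Nat.cast_le.2 ?_) le_rfl)
      rw [pow_zero, cnt_one, one_pow, Nat.zero_mul, Nat.zero_mul, pow_zero, mul_one, mul_one]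
      have h4 : (0 + (l + 1) + 1) ^ u ≤ (3 * l) ^ r :=
        (Nat.pow_le_pow_left (by omega) u).trans (Nat.pow_le_pow_right (by omega) hur.le)
      have h5 : 2 ^ ((l + 1) * (n * r - δ)) ≤ (2 * B) ^ (n * r - δ) := by
        rw [pow_mul]
        refine Nat.pow_le_pow_left ?_ _
        rw [pow_succ]
        omega
      calc C u * (0 + (l + 1) + 1) ^ u * 2 ^ ((l + 1) * (n * r - δ))
          ≤ C u * (3 * l) ^ r * (2 * B) ^ (n * r - δ) := by gcongr
        _ = C u * ((3 * l) ^ r * (2 * B) ^ (n * r - δ)) := by ring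
    calc ((U.biUnion fun u => S.bad P u 0 (0 + (l + 1)) r).card : ℝ≥0∞)
        ≤ ((∑ u ∈ U, (S.bad P u 0 (0 + (l + 1)) r).card : ℕ) : ℝ≥0∞) :=
          Nat.cast_le.2 Finset.card_biUnion_le
      _ = ∑ u ∈ U, ((S.bad P u 0 (0 + (l + 1)) r).card : ℝ≥0∞) := by push_cast; rfl
      _ ≤ ∑ u ∈ U, ((C u * ((3 * l) ^ r * (2 * B) ^ (n * r - δ)) : ℕ) : ℝ≥0∞) *
          Deg (dimQ P) P := Finset.sum_le_sum hu
      _ ≤ ∑ u ∈ Finset.range r, ((C u * ((3 * l) ^ r * (2 * B) ^ (n * r - δ)) : ℕ) : ℝ≥0∞) *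
          Deg (dimQ P) P :=
          Finset.sum_le_sum_of_subset_of_nonneg (Finset.filter_subset _ _)
            (fun _ _ _ => bot_le)
      _ = (((∑ u ∈ Finset.range r, C u) * 3 ^ r * 2 ^ (n * r - δ) * B ^ (n * r - δ) * l ^ r : ℕ) :
          ℝ≥0∞) * Deg (dimQ P) P := by
          rw [← Finset.sum_mul, ← Nat.cast_sum, ← Finset.sum_mul]
          congr 2
          rw [mul_pow, mul_pow]
          ring
  · intro lam hlam hsize A hAV hAp hrel
    by_contra hcon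
    push Not at hcon
    obtain ⟨hdim, hnt⟩ := hcon
    have hb : ∀ t j, |lam t j| < (2 : ℤ) ^ (l + 1) := by
      intro t j
      refine (hsize t j).trans_lt ?_
      exact_mod_cast hB1
    obtain ⟨u, hur, hum, hbad, hcase⟩ := E.exists_wit hD hdeg hV hon hγ hγn hAV hAp hb hrel
      hdim hnt
    apply hlam
    exact Finset.mem_biUnion.2 ⟨u, Finset.mem_filter.2 ⟨Finset.mem_range.2 hur,
      hE u hur hum hcase⟩, hbad⟩

end Pool.Agent.W282.EZ
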